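import Mathlib
import Pool.Agent.H527.F.F2
import Pool.Agent.H527.M.M4

/-! The sum of `q / φ(q)` over the moduli, and the first two moments. -/

set_option autoImplicit false

namespace Pool.Agent.H527.F

open Finset Pool.Agent.H527.AP Pool.Agent.H527.S Pool.Agent.H527.M Pool.Agent.H527.N

theorem QW_rows (Q W d : ℕ) : (QW Q W).filter (fun q => d ∣ q) = rows d W Q (2 * Q) := by
  unfold QW rows
  ext q
  simp only [mem_filter, mem_Ioc]
  tauto

theorem sum_tot (Q W D : ℕ) (hW : 0 < W) :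
    (Nat.totient W : ℝ) / W * Q * cc W D - 3 * (2 : ℝ) ^ W.primeFactors.card * D ≤
      ∑ q ∈ QW Q W, (q / (Nat.totient q : ℝ)) := by
  classical
  have h1 : ∀ q ∈ QW Q W, (∑ d ∈ Icc 1 D, (if d ∣ q then hh W d else 0)) ≤ (q / (Nat.totient q : ℝ)) := by
    intro q hq
    unfold QW at hq
    rw [mem_filter, mem_Ioc] at hq
    have hr := ratio_q 1 W q one_pos (by omega) (one_dvd _) hq.2
    rw [Nat.totient_one, Nat.cast_one, div_one, one_mul, one_mul] at hr
    rw [hr, rho_eq _ _ (by omega), ← sum_filter]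
    apply sum_le_sum_of_subset_of_nonneg
    · intro d hd
      rw [mem_filter] at hd
      rw [Nat.mem_divisors]
      exact ⟨hd.2, by omega⟩
    · intro d _ _
      exact hh_nonneg _ _
  refine le_trans ?_ (sum_le_sum h1)
  have h2 : ∑ q ∈ QW Q W, ∑ d ∈ Icc 1 D, (if d ∣ q then hh W d else 0) =
      ∑ d ∈ Icc 1 D, hh W d * ((rows d W Q (2 * Q)).card : ℝ) := by
    rw [sum_comm]
    apply sum_congr rfl
    intro d _
    rw [← sum_filter, sum_const, nsmul_eq_mul, mul_comm, QW_rows]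
  rw [h2]
  have h3 : ∀ d ∈ Icc 1 D, (Nat.totient W : ℝ) / W * Q * (hh W d / d) - 3 * (2 : ℝ) ^ W.primeFactors.card ≤
      hh W d * ((rows d W Q (2 * Q)).card : ℝ) := by
    intro d hd
    rw [mem_Icc] at hd
    by_cases h4 : hh W d = 0
    · rw [h4, zero_mul, zero_div, mul_zero, zero_sub]
      have : 0 ≤ 3 * (2 : ℝ) ^ W.primeFactors.card := by positivity
      linarith
    · have h5 : d.Coprime W := by
        unfold hh at h4
        rw [ite_eq_right_iff, Classical.not_imp] at h4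
        exact h4.1.2
      have h6 := rows_card d W Q (2 * Q) hW hd.1 (by omega) h5.symm
      rw [abs_le] at h6
      have h7 := hh_nonneg W d
      have h8 := hh_le_one W d
      have h9 := mul_le_mul_of_nonneg_left h6.1 h7
      have h10 : hh W d * (3 * (2 : ℝ) ^ W.primeFactors.card) ≤ 1 * (3 * (2 : ℝ) ^ W.primeFactors.card) := by gcongr
      have h11 : (((2 * Q : ℕ) : ℝ) - Q) / d * ((Nat.totient W : ℝ) / W) = (Q : ℝ) / d * ((Nat.totient W : ℝ) / W) := by
        push_cast; ring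
      rw [h11] at h9
      have h12 : (Nat.totient W : ℝ) / W * Q * (hh W d / d) = hh W d * ((Q : ℝ) / d * ((Nat.totient W : ℝ) / W)) := by ring
      rw [h12]
      linarith
  have h4 := sum_le_sum h3
  refine le_trans (le_of_eq ?_) h4
  rw [sum_sub_distrib, sum_const, Nat.card_Icc, nsmul_eq_mul, ← mul_sum]
  unfold cc
  push_cast
  ring

theorem row_count {W q l A : ℕ} (hl1 : 1 ≤ l) (hq : 0 < q) (hA : A ≤ q) :
    ((rows W q 0 A).filter (fun a => (a + l * q).Prime)).card = blk W q 0 A l := by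
  unfold blk
  have hlq : 1 * q ≤ l * q := Nat.mul_le_mul_right q hl1
  apply card_bij (fun a _ => a + l * q)
  · intro a ha
    unfold rows at ha
    rw [mem_filter, mem_filter, mem_Ioc] at ha
    rw [mem_filter, mem_Ioc]
    refine ⟨⟨by omega, by omega⟩, ha.2, ?_⟩
    have := Nat.ModEq.add_right (l * q) (Nat.modEq_zero_iff_dvd.2 ha.1.2.1)
    rwa [zero_add] at this
  · intro a _ a' _ h
    omega
  · intro p hp
    rw [mem_filter, mem_Ioc] at hp
    obtain ⟨⟨h1, h2⟩, hpp, hpW⟩ := hp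
    refine ⟨p - l * q, ?_, by omega⟩
    unfold rows
    have hpe : p - l * q + l * q = p := by omega
    rw [mem_filter, mem_filter, mem_Ioc, hpe]
    refine ⟨⟨⟨by omega, by omega⟩, ?_, ?_⟩, hpp⟩
    · exact (Nat.modEq_iff_dvd' (by omega)).1 hpW.symm
    · rw [Nat.coprime_iff_gcd_eq_one]
      by_contra hg
      have h3 : Nat.gcd (p - l * q) q ∣ p := by
        conv_rhs => rw [← hpe]
        exact dvd_add (Nat.gcd_dvd_left _ _) (Dvd.dvd.mul_left (Nat.gcd_dvd_right _ _) l)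
      rcases (Nat.dvd_prime hpp).1 h3 with h4 | h4
      · exact hg h4
      · have h5 : p ∣ q := by rw [← h4]; exact Nat.gcd_dvd_right _ _
        have := Nat.le_of_dvd hq h5
        omega

/-- the first moment for one modulus -/
theorem first_moment {W q A Y : ℕ} (hq : 0 < q) (hWq : W ≤ q) (hA : A ≤ q) :
    ∑ a ∈ rows W q 0 A, Nn Y q a = ∑ l ∈ Ls W Y, blk W q 0 A l := by
  classical
  unfold Nn
  have e1 : ∀ a ∈ rows W q 0 A, ((Icc 1 Y).filter (fun l => (a + l * q).Prime)).card =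
      ∑ l ∈ Icc 1 Y, (if (a + l * q).Prime then 1 else 0) := fun a _ => by rw [card_filter]
  rw [sum_congr rfl e1, sum_comm]
  unfold Ls
  rw [sum_filter]
  apply sum_congr rfl
  intro l hl
  rw [mem_Icc] at hl
  rw [← card_filter]
  split_ifs with hc
  · exact row_count hl.1 hq hA
  · rw [card_eq_zero, filter_eq_empty_iff]
    intro a ha hp
    unfold rows at ha
    rw [mem_filter, mem_Ioc] at ha
    exact hc (prime_cop ha.2.1 hl.1 ha.1.1 hWq hp)

theorem rows_sub {W q A a : ℕ} (ha : a ∈ rows W q 0 A) (hA : A ≤ q) : a ∈ rows W q 0 q := by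
  unfold rows at ha ⊢
  rw [mem_filter, mem_Ioc] at ha ⊢
  exact ⟨⟨ha.1.1, by omega⟩, ha.2⟩

/-- the second moment -/
theorem second_moment {Q W A Y : ℕ} (hWQ : W ≤ Q) (hAQ : A ≤ Q) :
    ∑ q ∈ QW Q W, ∑ a ∈ rows W q 0 A, (Nn Y q a) ^ 2 ≤
      ∑ q ∈ QW Q W, ∑ a ∈ rows W q 0 A, Nn Y q a + 2 * ∑ x ∈ PL W Y, TA Q W A x.1 x.2 := by
  classical
  have h1 : ∀ q ∈ QW Q W, ∑ a ∈ rows W q 0 A, (Nn Y q a) ^ 2 ≤
      ∑ a ∈ rows W q 0 A, (Nn Y q a + 2 * ((PL W Y).filter (fun x => (a + x.1 * q).Prime ∧ (a + x.2 * q).Prime)).card) := by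
    intro q hq
    unfold QW at hq
    rw [mem_filter, mem_Ioc] at hq
    apply sum_le_sum
    intro a ha
    exact Nn_sq (rows_sub ha (by omega)) (by omega)
  refine (sum_le_sum h1).trans (le_of_eq ?_)
  have e1 : ∀ q ∈ QW Q W, ∑ a ∈ rows W q 0 A, (Nn Y q a + 2 * ((PL W Y).filter (fun x => (a + x.1 * q).Prime ∧ (a + x.2 * q).Prime)).card) =
      ∑ a ∈ rows W q 0 A, Nn Y q a + 2 * ∑ x ∈ PL W Y, ((rows W q 0 A).filter (fun a => (a + x.1 * q).Prime ∧ (a + x.2 * q).Prime)).card := by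
    intro q _
    rw [sum_add_distrib, ← mul_sum]
    congr 2
    simp_rw [card_filter]
    rw [sum_comm]
  rw [sum_congr rfl e1, sum_add_distrib, ← mul_sum]
  congr 2
  unfold TA
  rw [sum_comm]

end Pool.Agent.H527.F
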