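import Mathlib
import Pool.Agent.H527.F.F3
import Pool.Agent.H527.N.N8

/-! The variance over the pairs `(q, a)`, `a ≤ A`. -/

set_option autoImplicit false

namespace Pool.Agent.H527.F

open Finset Pool.Agent.H527.AP Pool.Agent.H527.S Pool.Agent.H527.M Pool.Agent.H527.N

/-- the hypotheses for the variance -/
structure VarA (Q A Y k D f N₀ : ℕ) (P : Finset ℕ) (Er e : ℝ) : Prop where
  hP : ∀ p ∈ P, p.Prime
  hA0 : 0 < A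
  hAQ : A ≤ Q
  hQ : 2 ≤ Q
  hD : 1 ≤ D
  hf : 0 < f
  he : 0 < e
  he1 : e ≤ 1 / 3
  hEr : 0 ≤ Er
  hk : Cls P Y k
  hVQ : Y * (∏ p ∈ P, p) ≤ Q
  hWQ : ∏ p ∈ P, p ≤ Q
  hbt : ∀ a q N : ℕ, 1 ≤ q → N₀ ≤ N → (((range N).filter (fun t => (a + t * q).Prime)).card : ℝ) ≤
      3 * ((q : ℝ) / Nat.totient q) * N / Real.log N
  hN0 : N₀ ≤ Nat.sqrt Q
  hH1 : Hpsi 1 Q ((Y + 1) * Q) Er
  hHW : Hpsi (∏ p ∈ P, p) Q ((Y + 1) * Q) Er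
  hHr : ∀ r : ℕ, 1 ≤ r → r ≤ Y → ¬ f ∣ r → Hpsi (r * ∏ p ∈ P, p) Q ((Y + 1) * Q) Er
  hl0 : 0 < (Ls (∏ p ∈ P, p) Y).card
  k0 : 6 * Real.log Q ≤ e * (Ls (∏ p ∈ P, p) Y).card
  k1 : 2 * (k : ℝ) * (Ls (∏ p ∈ P, p) Y).card * D + 8 * (Y : ℝ) ^ 2 / Real.sqrt D ≤
    e * ((Ls (∏ p ∈ P, p) Y).card : ℝ) ^ 2
  k2 : 4 * (Y : ℝ) * Er * (Nat.totient (∏ p ∈ P, p)) * Real.log Q ≤ e / 2 * A
  k3 : 120 * (Y : ℝ) ^ 2 / Real.sqrt f ≤ e * ((Ls (∏ p ∈ P, p) Y).card : ℝ) ^ 2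
  k3' : 2 * (Y : ℝ) * ((∏ p ∈ P, p : ℕ) * (Nat.sqrt Q + 2)) * Real.log Q ≤ A
  k4 : 2 * Er + R2 ((Y + 1) * Q) ≤ e / 2 * (A / (Nat.totient (∏ p ∈ P, p) : ℝ))
  k5 : Real.log (2 * ((Y + 1) * Q)) ≤ (1 + e / 2) * Real.log Q
  k6 : ∀ q ∈ Ioc Q (2 * Q), 3 * (2 : ℝ) ^ q.primeFactors.card ≤ e * ((A : ℝ) / (∏ p ∈ P, p : ℕ) * ((Nat.totient q : ℝ) / q))
  k7 : 3 * (((∏ p ∈ P, p : ℕ) : ℝ) / (Nat.totient (∏ p ∈ P, p) : ℝ)) * ((2 : ℝ) ^ (∏ p ∈ P, p).primeFactors.card * D) ≤ e * Q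

/-- the normalisation -/
noncomputable def KA (Q Y : ℕ) (P : Finset ℕ) : ℝ :=
  ((Ls (∏ p ∈ P, p) Y).card : ℝ) ^ 2 / ((Nat.totient (∏ p ∈ P, p) : ℝ) * Real.log Q ^ 2)

section
variable {Q A Y k D f N₀ : ℕ} {P : Finset ℕ} {Er e : ℝ}

theorem VarA.basic (V : VarA Q A Y k D f N₀ P Er e) : 0 < Real.log Q ∧ (0 : ℝ) < Q ∧
    (0 : ℝ) < (Nat.totient (∏ p ∈ P, p) : ℝ) ∧ (0 : ℝ) < A ∧
    (0 : ℝ) < ((∏ p ∈ P, p : ℕ) : ℝ) ∧ (0 : ℝ) < ((Ls (∏ p ∈ P, p) Y).card : ℝ) ∧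
    2 * (Q : ℝ) * Er ≤ e * (Q * A) := by
  have hQ := V.hQ
  have hQ2 : (2 : ℝ) ≤ Q := by exact_mod_cast hQ
  have hA0 : (0 : ℝ) < A := by exact_mod_cast V.hA0
  have hW : 0 < ∏ p ∈ P, p := Finset.prod_pos fun p hp => (V.hP p hp).pos
  have hφ : (0 : ℝ) < (Nat.totient (∏ p ∈ P, p) : ℝ) := by exact_mod_cast Nat.totient_pos.2 hW
  have hφ1 : (1 : ℝ) ≤ (Nat.totient (∏ p ∈ P, p) : ℝ) := by exact_mod_cast Nat.totient_pos.2 hW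
  refine ⟨Real.log_pos (by linarith), by linarith, hφ, hA0, by exact_mod_cast hW, by exact_mod_cast V.hl0, ?_⟩
  have h4 := V.k4
  have hR : 0 ≤ R2 ((Y + 1) * Q) := by unfold R2; positivity
  have he := V.he
  have h5 : e / 2 * (A / (Nat.totient (∏ p ∈ P, p) : ℝ)) ≤ e / 2 * A := by
    apply mul_le_mul_of_nonneg_left (div_le_self (by linarith) hφ1) (by linarith)
  have h6 : 2 * Er ≤ e * A := by
    have : 0 ≤ e * A := by positivity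
    linarith
  have h7 : (Q : ℝ) * (2 * Er) ≤ Q * (e * A) := mul_le_mul_of_nonneg_left h6 (by linarith)
  linarith

theorem VarA.KQ (V : VarA Q A Y k D f N₀ P Er e) : 0 < KA Q Y P ∧ 0 < hm Q Y P ∧
    hm Q Y P ^ 2 * (Nat.totient (∏ p ∈ P, p) : ℝ) = KA Q Y P := by
  obtain ⟨b1, b2, b3, b4, b5, b6, b7⟩ := V.basic
  unfold KA hm
  refine ⟨by positivity, by positivity, ?_⟩
  field_simp

/-- the off-diagonal terms -/
theorem VarA.off (V : VarA Q A Y k D f N₀ P Er e) :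
    2 * ((∑ x ∈ PL (∏ p ∈ P, p) Y, TA Q (∏ p ∈ P, p) A x.1 x.2 : ℕ) : ℝ) ≤
      KA Q Y P * ((1 + e) * ((Q : ℝ) * A) * cc (∏ p ∈ P, p) D) + 10 * e * (KA Q Y P * ((Q : ℝ) * A)) := by
  classical
  obtain ⟨b1, b2, b3, b4, b5, b6, b7⟩ := V.basic
  have hW : 0 < ∏ p ∈ P, p := Finset.prod_pos fun p hp => (V.hP p hp).pos
  have he := V.he
  have he1 := V.he1
  obtain ⟨K, hK⟩ : ∃ K, K = KA Q Y P := ⟨_, rfl⟩
  obtain ⟨G, hG⟩ : ∃ G, G = Real.log Q := ⟨_, rfl⟩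
  obtain ⟨L, hL⟩ : ∃ L : ℝ, L = ((Ls (∏ p ∈ P, p) Y).card : ℝ) := ⟨_, rfl⟩
  obtain ⟨M, hM⟩ : ∃ M : ℝ, M = (Q : ℝ) * A := ⟨_, rfl⟩
  obtain ⟨S1, hS1⟩ : ∃ S1 : ℝ, S1 = (Q : ℝ) * A + 2 * Q * Er := ⟨_, rfl⟩
  have hKdef : K = L ^ 2 / ((Nat.totient (∏ p ∈ P, p) : ℝ) * G ^ 2) := by rw [hK, hL, hG]; rfl
  have hM0 : 0 < M := by rw [hM]; positivity
  have hS10 : 0 ≤ S1 := by
    rw [hS1]
    have := V.hEr
    positivity
  have hrho : ∀ x ∈ PL (∏ p ∈ P, p) Y, (((x.2 - x.1 : ℕ) : ℝ) / (Nat.totient ((x.2 - x.1) * ∏ p ∈ P, p) : ℝ)) =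
      rho (∏ p ∈ P, p) (x.2 - x.1) / (Nat.totient (∏ p ∈ P, p) : ℝ) := by
    intro x hx
    obtain ⟨a1, a2, a3, _, _⟩ := PL_mem hx
    exact ratio_W _ _ hW (by omega)
  have hone : ∀ x ∈ PL (∏ p ∈ P, p) Y, (TA Q (∏ p ∈ P, p) A x.1 x.2 : ℝ) ≤
      (rho (∏ p ∈ P, p) (x.2 - x.1) * (S1 / ((Nat.totient (∏ p ∈ P, p) : ℝ) * G ^ 2)) + 4 * Y * Q * Er / G) +
      (if f ∣ x.2 - x.1 then rho (∏ p ∈ P, p) (x.2 - x.1) *
        (6 / (Nat.totient (∏ p ∈ P, p) : ℝ) * (S1 / G ^ 2 + 2 * Y * Q * ((∏ p ∈ P, p : ℕ) * (Nat.sqrt Q + 2)) / G)) else 0) := by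
    intro x hx
    obtain ⟨a1, a2, a3, a4, a5⟩ := PL_mem hx
    have hr0 := rho_nonneg (∏ p ∈ P, p) (x.2 - x.1)
    have hEr := V.hEr
    have hrVQ : (x.2 - x.1) * (∏ p ∈ P, p) ≤ Q :=
      (Nat.mul_le_mul_right _ (by omega : x.2 - x.1 ≤ Y)).trans V.hVQ
    split_ifs with hf
    · have h1 := TA_le_bt V.hbt a4 a1 a2 hW V.hAQ a3 V.hQ V.hN0 V.hEr V.hH1
      rw [hrho x hx, ← hG, ← hS1] at h1
      have h2 : 0 ≤ rho (∏ p ∈ P, p) (x.2 - x.1) * (S1 / ((Nat.totient (∏ p ∈ P, p) : ℝ) * G ^ 2)) + 4 * Y * Q * Er / G := by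
        rw [hG]; positivity
      refine h1.trans (le_trans (le_of_eq ?_) (le_add_of_nonneg_left h2))
      rw [hG]
      field_simp
    · have h1 := TA_le a4 hW a1 a2 a3 V.hQ V.hEr hrVQ V.hAQ (V.hHr _ (by omega) (by omega) hf) V.hH1
      rw [hrho x hx, ← hG, ← hS1] at h1
      rw [add_zero]
      refine h1.trans (le_of_eq ?_)
      rw [hG]
      field_simp
  have h1 : ((∑ x ∈ PL (∏ p ∈ P, p) Y, TA Q (∏ p ∈ P, p) A x.1 x.2 : ℕ) : ℝ) ≤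
      (∑ x ∈ PL (∏ p ∈ P, p) Y, rho (∏ p ∈ P, p) (x.2 - x.1)) * (S1 / ((Nat.totient (∏ p ∈ P, p) : ℝ) * G ^ 2)) +
      ((PL (∏ p ∈ P, p) Y).card : ℝ) * (4 * Y * Q * Er / G) +
      (∑ x ∈ (PL (∏ p ∈ P, p) Y).filter (fun x => f ∣ x.2 - x.1), rho (∏ p ∈ P, p) (x.2 - x.1)) *
        (6 / (Nat.totient (∏ p ∈ P, p) : ℝ) * (S1 / G ^ 2 + 2 * Y * Q * ((∏ p ∈ P, p : ℕ) * (Nat.sqrt Q + 2)) / G)) := by
    push_cast
    refine (sum_le_sum hone).trans (le_of_eq ?_)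
    rw [sum_add_distrib, sum_add_distrib, ← sum_mul, sum_const, nsmul_eq_mul, ← sum_filter, ← sum_mul]
    push_cast
    ring
  have h2 := pair_sum P (∏ p ∈ P, p) Y k D V.hD (fun p hp => dvd_prod_of_mem _ hp) V.hk
  have h3 := exc_sum (∏ p ∈ P, p) (∏ p ∈ P, p) Y f V.hf
  have hk1 := V.k1
  have hk3 := V.k3
  have hk3' := V.k3'
  have hk2 := V.k2
  rw [← hL] at h2 hk1 hk3
  rw [← hG] at hk3' hk2 b1
  have hccn := cc_nonneg (∏ p ∈ P, p) D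
  have hcc5 := cc_le (∏ p ∈ P, p) D
  have hL0 : 0 < L := by rw [hL]; exact b6
  have hK0 : 0 < K := by rw [hKdef]; positivity
  have hS1le : S1 ≤ (1 + e) * M := by rw [hS1, hM]; linarith
  -- first part
  have p1 : 2 * ((∑ x ∈ PL (∏ p ∈ P, p) Y, rho (∏ p ∈ P, p) (x.2 - x.1)) * (S1 / ((Nat.totient (∏ p ∈ P, p) : ℝ) * G ^ 2))) ≤
      K * ((1 + e) * M * cc (∏ p ∈ P, p) D) + K * (e * ((1 + e) * M)) := by
    have h4 : 2 * (∑ x ∈ PL (∏ p ∈ P, p) Y, rho (∏ p ∈ P, p) (x.2 - x.1)) ≤ L ^ 2 * (cc (∏ p ∈ P, p) D + e) := by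
      refine h2.trans ?_
      have : 2 * (k : ℝ) * L * D + 8 * (Y : ℝ) ^ 2 / Real.sqrt D ≤ e * L ^ 2 := hk1
      linarith
    calc 2 * ((∑ x ∈ PL (∏ p ∈ P, p) Y, rho (∏ p ∈ P, p) (x.2 - x.1)) * (S1 / ((Nat.totient (∏ p ∈ P, p) : ℝ) * G ^ 2))) =
        (2 * (∑ x ∈ PL (∏ p ∈ P, p) Y, rho (∏ p ∈ P, p) (x.2 - x.1))) * (S1 / ((Nat.totient (∏ p ∈ P, p) : ℝ) * G ^ 2)) := by ring
      _ ≤ (L ^ 2 * (cc (∏ p ∈ P, p) D + e)) * (S1 / ((Nat.totient (∏ p ∈ P, p) : ℝ) * G ^ 2)) := by gcongr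
      _ = K * (S1 * (cc (∏ p ∈ P, p) D + e)) := by rw [hKdef]; ring
      _ ≤ K * (((1 + e) * M) * (cc (∏ p ∈ P, p) D + e)) := by gcongr
      _ = _ := by ring
  -- second part
  have p2 : 2 * (((PL (∏ p ∈ P, p) Y).card : ℝ) * (4 * Y * Q * Er / G)) ≤ e / 2 * (K * M) := by
    have h4 : 2 * ((PL (∏ p ∈ P, p) Y).card : ℝ) ≤ L ^ 2 := by
      rw [hL]; exact_mod_cast PL_card (∏ p ∈ P, p) Y
    have hEr := V.hEr
    calc 2 * (((PL (∏ p ∈ P, p) Y).card : ℝ) * (4 * Y * Q * Er / G)) =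
        (2 * ((PL (∏ p ∈ P, p) Y).card : ℝ)) * (4 * Y * Q * Er / G) := by ring
      _ ≤ L ^ 2 * (4 * Y * Q * Er / G) := by gcongr
      _ = K * Q * (4 * (Y : ℝ) * Er * (Nat.totient (∏ p ∈ P, p)) * G) := by rw [hKdef]; field_simp
      _ ≤ K * Q * (e / 2 * A) := by gcongr
      _ = _ := by rw [hM]; ring
  -- third part
  have p3 : 2 * ((∑ x ∈ (PL (∏ p ∈ P, p) Y).filter (fun x => f ∣ x.2 - x.1), rho (∏ p ∈ P, p) (x.2 - x.1)) *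
        (6 / (Nat.totient (∏ p ∈ P, p) : ℝ) * (S1 / G ^ 2 + 2 * Y * Q * ((∏ p ∈ P, p : ℕ) * (Nat.sqrt Q + 2)) / G))) ≤
      K * (e * (S1 + M)) := by
    have h4 : 12 * (∑ x ∈ (PL (∏ p ∈ P, p) Y).filter (fun x => f ∣ x.2 - x.1), rho (∏ p ∈ P, p) (x.2 - x.1)) ≤ e * L ^ 2 := by
      refine le_trans ?_ hk3
      calc 12 * (∑ x ∈ (PL (∏ p ∈ P, p) Y).filter (fun x => f ∣ x.2 - x.1), rho (∏ p ∈ P, p) (x.2 - x.1)) ≤
            12 * (10 * (Y : ℝ) ^ 2 / Real.sqrt f) := by gcongr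
        _ = _ := by ring
    have h5 : 2 * (Y : ℝ) * Q * ((∏ p ∈ P, p : ℕ) * (Nat.sqrt Q + 2)) / G ≤ M / G ^ 2 := by
      rw [div_le_div_iff₀ b1 (by positivity)]
      calc 2 * (Y : ℝ) * Q * ((∏ p ∈ P, p : ℕ) * (Nat.sqrt Q + 2)) * G ^ 2 =
          (2 * (Y : ℝ) * ((∏ p ∈ P, p : ℕ) * (Nat.sqrt Q + 2)) * G) * (Q * G) := by ring
        _ ≤ A * (Q * G) := by gcongr
        _ = _ := by rw [hM]; ring
    calc 2 * ((∑ x ∈ (PL (∏ p ∈ P, p) Y).filter (fun x => f ∣ x.2 - x.1), rho (∏ p ∈ P, p) (x.2 - x.1)) *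
        (6 / (Nat.totient (∏ p ∈ P, p) : ℝ) * (S1 / G ^ 2 + 2 * Y * Q * ((∏ p ∈ P, p : ℕ) * (Nat.sqrt Q + 2)) / G))) =
        (12 * (∑ x ∈ (PL (∏ p ∈ P, p) Y).filter (fun x => f ∣ x.2 - x.1), rho (∏ p ∈ P, p) (x.2 - x.1))) *
        (1 / (Nat.totient (∏ p ∈ P, p) : ℝ) * (S1 / G ^ 2 + 2 * Y * Q * ((∏ p ∈ P, p : ℕ) * (Nat.sqrt Q + 2)) / G)) := by ring
      _ ≤ (e * L ^ 2) * (1 / (Nat.totient (∏ p ∈ P, p) : ℝ) * (S1 / G ^ 2 + M / G ^ 2)) := by gcongr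
      _ = _ := by rw [hKdef]; field_simp
  rw [← hK, ← hM]
  have hKQ : 0 < K * M := by positivity
  have q1 : K * (e * ((1 + e) * M)) ≤ 2 * e * (K * M) := by
    calc K * (e * ((1 + e) * M)) ≤ K * (e * (2 * M)) := by gcongr; linarith
      _ = _ := by ring
  have q2 : K * (e * (S1 + M)) ≤ 3 * e * (K * M) := by
    calc K * (e * (S1 + M)) ≤ K * (e * ((1 + e) * M + M)) := by gcongr
      _ ≤ K * (e * (2 * M + M)) := by gcongr; linarith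
      _ = _ := by ring
  have heKQ : 0 ≤ e * (K * M) := by positivity
  linarith

theorem VarA.Wle (V : VarA Q A Y k D f N₀ P Er e) {q : ℕ} (hq : q ∈ Ioc Q (2 * Q)) : ∏ p ∈ P, p ≤ q := by
  have := V.hWQ
  rw [mem_Ioc] at hq
  omega

theorem VarA.Xlow (V : VarA Q A Y k D f N₀ P Er e) {q : ℕ} (hq : q ∈ Ioc Q (2 * Q)) (hqW : q.Coprime (∏ p ∈ P, p)) :
    (1 - e) * (hm Q Y P * A) ≤ ((∑ a ∈ rows (∏ p ∈ P, p) q 0 A, Nn Y q a : ℕ) : ℝ) := by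
  classical
  obtain ⟨b1, b2, b3, b4, b5, b6, b7⟩ := V.basic
  have he := V.he
  have he1 := V.he1
  have hQ2 := V.hQ
  have hWq := V.Wle hq
  have hAQ := V.hAQ
  rw [mem_Ioc] at hq
  rw [first_moment (by omega) hWq (by omega)]
  push_cast
  have hqQ : (Q : ℝ) ≤ q := by exact_mod_cast hq.1.le
  have hq0 : (0 : ℝ) < q := by linarith
  have hk5 := V.k5
  have hk4 := V.k4
  have h1 : ∀ l ∈ Ls (∏ p ∈ P, p) Y, ((A : ℝ) / (Nat.totient (∏ p ∈ P, p) : ℝ) * (1 - e / 2)) / ((1 + e / 2) * Real.log Q) ≤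
      (blk (∏ p ∈ P, p) q 0 A l : ℝ) := by
    intro l hl
    unfold Ls at hl
    rw [mem_filter, mem_Icc] at hl
    have h2 := blk_ge (W := ∏ p ∈ P, p) (q := q) (x := (Y + 1) * Q) (α := 0) (β := A) (l := l) (Er := Er)
      (fun v hV1 hV2 b hb => V.hHW v (by omega) hV2 b hb) (by omega) (Nat.zero_le A) (by omega) hl.1.1 (by
        have h4 : (l + 1) * q ≤ (Y + 1) * (2 * Q) := Nat.mul_le_mul (by omega) hq.2
        have h5 : 2 * ((Y + 1) * Q) = (Y + 1) * (2 * Q) := by ring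
        omega) (Nat.Coprime.mul_left hl.2 hqW)
    refine le_trans ?_ h2
    rw [Nat.cast_zero, sub_zero]
    have h3 : Real.log (((l : ℝ) + 1) * q) ≤ (1 + e / 2) * Real.log Q := by
      refine le_trans (Real.log_le_log (by positivity) ?_) hk5
      have h4 : (l + 1) * q ≤ (Y + 1) * (2 * Q) := Nat.mul_le_mul (by omega) hq.2
      have h5 : (((l + 1) * q : ℕ) : ℝ) ≤ (((Y + 1) * (2 * Q) : ℕ) : ℝ) := by exact_mod_cast h4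
      push_cast at h5
      linarith
    have h3' : 0 < Real.log (((l : ℝ) + 1) * q) := by
      apply Real.log_pos
      have : (2 : ℝ) ≤ Q := by exact_mod_cast hQ2
      have : (1 : ℝ) ≤ l := by exact_mod_cast hl.1.1
      nlinarith
    have h4 : (A : ℝ) / (Nat.totient (∏ p ∈ P, p) : ℝ) * (1 - e / 2) ≤
        (A : ℝ) / (Nat.totient (∏ p ∈ P, p) : ℝ) - 2 * Er - R2 ((Y + 1) * Q) := by
      linarith
    have h5 : 0 ≤ (A : ℝ) / (Nat.totient (∏ p ∈ P, p) : ℝ) * (1 - e / 2) := by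
      apply mul_nonneg (by positivity); linarith
    calc ((A : ℝ) / (Nat.totient (∏ p ∈ P, p) : ℝ) * (1 - e / 2)) / ((1 + e / 2) * Real.log Q) ≤
          ((A : ℝ) / (Nat.totient (∏ p ∈ P, p) : ℝ) * (1 - e / 2)) / Real.log (((l : ℝ) + 1) * q) :=
          div_le_div_of_nonneg_left h5 h3' h3
      _ ≤ _ := by gcongr
  have h2 := card_nsmul_le_sum _ _ _ h1
  rw [nsmul_eq_mul] at h2
  refine le_trans ?_ h2
  unfold hm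
  have h3 : (1 - e) * (1 + e / 2) ≤ 1 - e / 2 := by nlinarith
  have h4 : (1 - e) ≤ (1 - e / 2) / (1 + e / 2) := by
    rw [le_div_iff₀ (by linarith)]; exact h3
  calc (1 - e) * (((Ls (∏ p ∈ P, p) Y).card : ℝ) / ((Nat.totient (∏ p ∈ P, p) : ℝ) * Real.log Q) * A) ≤
      ((1 - e / 2) / (1 + e / 2)) * (((Ls (∏ p ∈ P, p) Y).card : ℝ) / ((Nat.totient (∏ p ∈ P, p) : ℝ) * Real.log Q) * A) := by gcongr
    _ = _ := by field_simp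

theorem VarA.Xupp (V : VarA Q A Y k D f N₀ P Er e) {q : ℕ} (hq : q ∈ Ioc Q (2 * Q)) (hqW : q.Coprime (∏ p ∈ P, p)) :
    ((∑ a ∈ rows (∏ p ∈ P, p) q 0 A, Nn Y q a : ℕ) : ℝ) ≤ (1 + e / 2) * (hm Q Y P * A) := by
  classical
  obtain ⟨b1, b2, b3, b4, b5, b6, b7⟩ := V.basic
  have he := V.he
  have he1 := V.he1
  have hQ2 := V.hQ
  have hWq := V.Wle hq
  have hAQ := V.hAQ
  rw [mem_Ioc] at hq
  rw [first_moment (by omega) hWq (by omega)]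
  push_cast
  have hqQ : (Q : ℝ) ≤ q := by exact_mod_cast hq.1.le
  have hq0 : (0 : ℝ) < q := by linarith
  have hk4 := V.k4
  have h1 : ∀ l ∈ Ls (∏ p ∈ P, p) Y, (blk (∏ p ∈ P, p) q 0 A l : ℝ) ≤
      ((A : ℝ) / (Nat.totient (∏ p ∈ P, p) : ℝ) * (1 + e / 2)) / Real.log Q := by
    intro l hl
    unfold Ls at hl
    rw [mem_filter, mem_Icc] at hl
    have h2 := blk_le (W := ∏ p ∈ P, p) (q := q) (x := (Y + 1) * Q) (α := 0) (β := A) (l := l) (Er := Er)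
      (fun v hV1 hV2 b hb => V.hHW v (by omega) hV2 b hb) (by omega) (Nat.zero_le A) (by omega) hl.1.1 (by
        have h4 : (l + 1) * q ≤ (Y + 1) * (2 * Q) := Nat.mul_le_mul (by omega) hq.2
        have h5 : 2 * ((Y + 1) * Q) = (Y + 1) * (2 * Q) := by ring
        omega) (Nat.Coprime.mul_left hl.2 hqW)
    refine h2.trans ?_
    rw [Nat.cast_zero, sub_zero]
    have h3 : Real.log Q ≤ Real.log ((l : ℝ) * q) := by
      apply Real.log_le_log b2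
      have : (1 : ℝ) ≤ l := by exact_mod_cast hl.1.1
      nlinarith
    have hR0 : 0 ≤ R2 ((Y + 1) * Q) := by unfold R2; positivity
    have h4 : (A : ℝ) / (Nat.totient (∏ p ∈ P, p) : ℝ) + 2 * Er ≤
        (A : ℝ) / (Nat.totient (∏ p ∈ P, p) : ℝ) * (1 + e / 2) := by
      linarith
    have hEr := V.hEr
    calc ((A : ℝ) / (Nat.totient (∏ p ∈ P, p) : ℝ) + 2 * Er) / Real.log ((l : ℝ) * q) ≤
          ((A : ℝ) / (Nat.totient (∏ p ∈ P, p) : ℝ) + 2 * Er) / Real.log Q :=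
          div_le_div_of_nonneg_left (by positivity) b1 h3
      _ ≤ _ := by gcongr
  have h2 := sum_le_card_nsmul _ _ _ h1
  rw [nsmul_eq_mul] at h2
  refine h2.trans (le_of_eq ?_)
  unfold hm
  field_simp

theorem VarA.Rbd (V : VarA Q A Y k D f N₀ P Er e) {q : ℕ} (hq : q ∈ Ioc Q (2 * Q)) (hqW : q.Coprime (∏ p ∈ P, p)) :
    ((rows (∏ p ∈ P, p) q 0 A).card : ℝ) ≤ (1 + e) * ((A : ℝ) / (∏ p ∈ P, p : ℕ) * ((Nat.totient q : ℝ) / q)) := by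
  have h6 := V.k6 q hq
  have hW : 0 < ∏ p ∈ P, p := Finset.prod_pos fun p hp => (V.hP p hp).pos
  rw [mem_Ioc] at hq
  have h1 := rows_card (∏ p ∈ P, p) q 0 A (by omega) hW (Nat.zero_le A) hqW
  rw [Nat.cast_zero, sub_zero, abs_le] at h1
  linarith [h1.1, h1.2]

theorem VarA.one (V : VarA Q A Y k D f N₀ P Er e) {q : ℕ} (hq : q ∈ Ioc Q (2 * Q)) (hqW : q.Coprime (∏ p ∈ P, p)) :
    -(2 * mu Q Y P q * ((∑ a ∈ rows (∏ p ∈ P, p) q 0 A, Nn Y q a : ℕ) : ℝ)) +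
      mu Q Y P q ^ 2 * ((rows (∏ p ∈ P, p) q 0 A).card : ℝ) ≤
      -((1 - 3 * e) * (hm Q Y P ^ 2 * (∏ p ∈ P, p : ℕ) * (A * (q / (Nat.totient q : ℝ))))) := by
  have h1 := V.Xlow hq hqW
  have h2 := V.Rbd hq hqW
  obtain ⟨b1, b2, b3, b4, b5, b6, b7⟩ := V.basic
  obtain ⟨hK, hh, _⟩ := V.KQ
  rw [mem_Ioc] at hq
  have hq0 : (0 : ℝ) < q := by exact_mod_cast (by omega : 0 < q)
  have hφq : (0 : ℝ) < (Nat.totient q : ℝ) := by exact_mod_cast Nat.totient_pos.2 (by omega : 0 < q)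
  have hmu : 0 < mu Q Y P q := by unfold mu; positivity
  have h3 : mu Q Y P q * ((1 + e) * ((A : ℝ) / (∏ p ∈ P, p : ℕ) * ((Nat.totient q : ℝ) / q))) = (1 + e) * (hm Q Y P * A) := by
    unfold mu; field_simp
  have h4 : mu Q Y P q * (hm Q Y P * A) = hm Q Y P ^ 2 * (∏ p ∈ P, p : ℕ) * (A * (q / (Nat.totient q : ℝ))) := by
    unfold mu; ring
  rw [← h4]
  have h5 : mu Q Y P q ^ 2 * ((rows (∏ p ∈ P, p) q 0 A).card : ℝ) ≤ mu Q Y P q * ((1 + e) * (hm Q Y P * A)) := by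
    rw [← h3, pow_two, mul_assoc]
    gcongr
  have h6 : mu Q Y P q * ((1 - e) * (hm Q Y P * A)) ≤ mu Q Y P q * ((∑ a ∈ rows (∏ p ∈ P, p) q 0 A, Nn Y q a : ℕ) : ℝ) := by gcongr
  nlinarith

/-- **the variance** -/
theorem VarA.variance (V : VarA Q A Y k D f N₀ P Er e) :
    ∑ q ∈ QW Q (∏ p ∈ P, p), ∑ a ∈ rows (∏ p ∈ P, p) q 0 A, ((Nn Y q a : ℝ) - mu Q Y P q) ^ 2 ≤
      60 * e * (KA Q Y P * ((Q : ℝ) * A)) := by
  classical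
  obtain ⟨b1, b2, b3, b4, b5, b6, b7⟩ := V.basic
  obtain ⟨hK, hh, hKh⟩ := V.KQ
  have he := V.he
  have he1 := V.he1
  have hWpos : 0 < ∏ p ∈ P, p := Finset.prod_pos fun p hp => (V.hP p hp).pos
  have hsec := second_moment (Q := Q) (A := A) (Y := Y) V.hWQ V.hAQ
  have hoff := V.off
  obtain ⟨M, hM⟩ : ∃ M : ℝ, M = (Q : ℝ) * A := ⟨_, rfl⟩
  have hM0 : 0 < M := by rw [hM]; positivity
  -- diagonal
  have hdiag : ((∑ q ∈ QW Q (∏ p ∈ P, p), ∑ a ∈ rows (∏ p ∈ P, p) q 0 A, Nn Y q a : ℕ) : ℝ) ≤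
      e * (KA Q Y P * M) := by
    have h1 : ∀ q ∈ QW Q (∏ p ∈ P, p), ((∑ a ∈ rows (∏ p ∈ P, p) q 0 A, Nn Y q a : ℕ) : ℝ) ≤ 2 * (hm Q Y P * A) := by
      intro q hq
      unfold QW at hq
      rw [mem_filter] at hq
      refine (V.Xupp hq.1 hq.2).trans ?_
      have : 0 < hm Q Y P * A := by positivity
      nlinarith
    have h2 := sum_le_card_nsmul _ _ _ h1
    rw [nsmul_eq_mul] at h2
    have h3 : ((QW Q (∏ p ∈ P, p)).card : ℝ) ≤ Q := by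
      have h4 : (QW Q (∏ p ∈ P, p)).card ≤ (Ioc Q (2 * Q)).card := card_filter_le _ _
      rw [Nat.card_Ioc] at h4
      exact_mod_cast (by omega : (QW Q (∏ p ∈ P, p)).card ≤ Q)
    push_cast at h2 ⊢
    refine h2.trans ?_
    have hk0 := V.k0
    calc ((QW Q (∏ p ∈ P, p)).card : ℝ) * (2 * (hm Q Y P * A)) ≤ Q * (2 * (hm Q Y P * A)) := by gcongr
      _ = (6 * Real.log Q) * (1 / 3 * (Q * A) * hm Q Y P / Real.log Q) := by field_simp; ring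
      _ ≤ (e * (Ls (∏ p ∈ P, p) Y).card) * (1 / 3 * (Q * A) * hm Q Y P / Real.log Q) := by gcongr
      _ = 1 / 3 * (e * ((hm Q Y P * ((Ls (∏ p ∈ P, p) Y).card : ℝ) / Real.log Q) * (Q * A))) := by ring
      _ = 1 / 3 * (e * (KA Q Y P * M)) := by
          rw [hM, ← hKh]
          unfold hm
          field_simp
      _ ≤ _ := by
          have : 0 ≤ e * (KA Q Y P * M) := by positivity
          linarith
  -- the main term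
  have hmain : ∑ q ∈ QW Q (∏ p ∈ P, p), (-(2 * mu Q Y P q * ((∑ a ∈ rows (∏ p ∈ P, p) q 0 A, Nn Y q a : ℕ) : ℝ)) +
      mu Q Y P q ^ 2 * ((rows (∏ p ∈ P, p) q 0 A).card : ℝ)) ≤
      -((1 - 3 * e) * (KA Q Y P * (M * cc (∏ p ∈ P, p) D))) + e * (KA Q Y P * M) := by
    have h1 : ∀ q ∈ QW Q (∏ p ∈ P, p), (-(2 * mu Q Y P q * ((∑ a ∈ rows (∏ p ∈ P, p) q 0 A, Nn Y q a : ℕ) : ℝ)) +
      mu Q Y P q ^ 2 * ((rows (∏ p ∈ P, p) q 0 A).card : ℝ)) ≤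
      -((1 - 3 * e) * (hm Q Y P ^ 2 * (∏ p ∈ P, p : ℕ) * A)) * (q / (Nat.totient q : ℝ)) := by
      intro q hq
      unfold QW at hq
      rw [mem_filter] at hq
      refine (V.one hq.1 hq.2).trans (le_of_eq ?_)
      ring
    refine (sum_le_sum h1).trans ?_
    rw [← mul_sum]
    have h2 := sum_tot Q (∏ p ∈ P, p) D hWpos
    have h3 : 0 ≤ (1 - 3 * e) * (hm Q Y P ^ 2 * (∏ p ∈ P, p : ℕ) * A) := by
      apply mul_nonneg (by linarith) (by positivity)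
    have h4 := mul_le_mul_of_nonneg_left h2 h3
    have h5 : (1 - 3 * e) * (hm Q Y P ^ 2 * (∏ p ∈ P, p : ℕ) * A) * ((Nat.totient (∏ p ∈ P, p) : ℝ) / (∏ p ∈ P, p : ℕ) * Q * cc (∏ p ∈ P, p) D -
        3 * (2 : ℝ) ^ (∏ p ∈ P, p).primeFactors.card * D) =
        (1 - 3 * e) * (KA Q Y P * (M * cc (∏ p ∈ P, p) D)) -
        (1 - 3 * e) * (KA Q Y P * A * (3 * (((∏ p ∈ P, p : ℕ) : ℝ) / (Nat.totient (∏ p ∈ P, p) : ℝ)) *
          ((2 : ℝ) ^ (∏ p ∈ P, p).primeFactors.card * D))) := by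
      rw [← hKh, hM]
      field_simp
    rw [h5] at h4
    have hk7 := V.k7
    have h6 : (1 - 3 * e) * (KA Q Y P * A * (3 * (((∏ p ∈ P, p : ℕ) : ℝ) / (Nat.totient (∏ p ∈ P, p) : ℝ)) *
          ((2 : ℝ) ^ (∏ p ∈ P, p).primeFactors.card * D))) ≤ 1 * (KA Q Y P * A * (e * Q)) := by
      apply mul_le_mul (by linarith) _ (by positivity) (by norm_num)
      gcongr
    have h7 : 1 * (KA Q Y P * A * (e * Q)) = e * (KA Q Y P * M) := by rw [hM]; ring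
    linarith
  have hexp : ∑ q ∈ QW Q (∏ p ∈ P, p), ∑ a ∈ rows (∏ p ∈ P, p) q 0 A, ((Nn Y q a : ℝ) - mu Q Y P q) ^ 2 =
      ((∑ q ∈ QW Q (∏ p ∈ P, p), ∑ a ∈ rows (∏ p ∈ P, p) q 0 A, (Nn Y q a) ^ 2 : ℕ) : ℝ) +
      ∑ q ∈ QW Q (∏ p ∈ P, p), (-(2 * mu Q Y P q * ((∑ a ∈ rows (∏ p ∈ P, p) q 0 A, Nn Y q a : ℕ) : ℝ)) +
      mu Q Y P q ^ 2 * ((rows (∏ p ∈ P, p) q 0 A).card : ℝ)) := by
    push_cast
    rw [← sum_add_distrib]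
    apply sum_congr rfl
    intro q _
    rw [mul_sum, ← sum_neg_distrib]
    have : mu Q Y P q ^ 2 * ((rows (∏ p ∈ P, p) q 0 A).card : ℝ) = ∑ a ∈ rows (∏ p ∈ P, p) q 0 A, mu Q Y P q ^ 2 := by
      rw [sum_const, nsmul_eq_mul]; ring
    rw [this, ← sum_add_distrib, ← sum_add_distrib]
    apply sum_congr rfl
    intro a _
    ring
  have hsec' : ((∑ q ∈ QW Q (∏ p ∈ P, p), ∑ a ∈ rows (∏ p ∈ P, p) q 0 A, (Nn Y q a) ^ 2 : ℕ) : ℝ) ≤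
      ((∑ q ∈ QW Q (∏ p ∈ P, p), ∑ a ∈ rows (∏ p ∈ P, p) q 0 A, Nn Y q a : ℕ) : ℝ) +
        2 * ((∑ x ∈ PL (∏ p ∈ P, p) Y, TA Q (∏ p ∈ P, p) A x.1 x.2 : ℕ) : ℝ) := by exact_mod_cast hsec
  rw [hexp]
  rw [← hM] at hoff ⊢
  obtain ⟨Z, hZ⟩ : ∃ Z : ℝ, Z = KA Q Y P * (M * cc (∏ p ∈ P, p) D) := ⟨_, rfl⟩
  have hZle : Z ≤ 5 * (KA Q Y P * M) := by
    rw [hZ]
    have h1 := cc_le (∏ p ∈ P, p) D
    have h2 := cc_nonneg (∏ p ∈ P, p) D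
    calc KA Q Y P * (M * cc (∏ p ∈ P, p) D) ≤ KA Q Y P * (M * 5) := by gcongr
      _ = _ := by ring
  have e1 : KA Q Y P * ((1 + e) * M * cc (∏ p ∈ P, p) D) = (1 + e) * Z := by rw [hZ]; ring
  rw [e1] at hoff
  rw [← hZ] at hmain
  have h9 : e * Z ≤ e * (5 * (KA Q Y P * M)) := by gcongr
  have h10 : 0 ≤ e * (KA Q Y P * M) := by positivity
  linarith

end

end Pool.Agent.H527.F
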