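import Mathlib
import Pool.Agent.H527.N.N15
import Pool.Agent.H527.F.F4

/-! The hypotheses of the variance bound hold for large `Q`. -/

set_option autoImplicit false

namespace Pool.Agent.H527.F

open Finset Filter Pool.Agent.H527.AP Pool.Agent.H527.S Pool.Agent.H527.M Pool.Agent.H527.N

section
variable {c1 v A β e l0 C L l : ℝ} {D N₀ Z Q fs f : ℕ} {P0 : Finset ℕ} {Y : ℕ}

set_option maxHeartbeats 4000000 in
theorem stg_varA (S : Stg c1 v A β e l0 C L l D N₀ Z Q fs f P0 Y) {T : ℕ} {E : ℝ} (hE1 : 1 ≤ E)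
    (hE : 2 * E * ((∏ p ∈ P0, p : ℕ) : ℝ) ≤ Real.exp (3 / 2 * L ^ v)) (hTQ : T ≤ Q) (hT : (Q : ℝ) ≤ T * E) :
    VarA Q T Y (SY P0 Y).card D f N₀ P0 (2 * ((Y : ℝ) + 1) * Q * Real.exp (-(l / 4))) e := by
  classical
  obtain ⟨b2, hQ0, hY1, hlY, hLv, hQe, hVpos, hl0⟩ := S.bas
  have hWpos : 0 < ∏ p ∈ P0, p := hVpos
  have hE0 : 0 < E := by linarith
  have hY0 : (0 : ℝ) < Y := by linarith
  have he := S.he
  have hL0 : 0 < L := by linarith
  obtain ⟨Wr, hWr⟩ : ∃ Wr : ℝ, Wr = ((∏ p ∈ P0, p : ℕ) : ℝ) := ⟨_, rfl⟩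
  have hWr1 : 1 ≤ Wr := by rw [hWr]; exact_mod_cast hWpos
  have hWr0 : 0 < Wr := by linarith
  have hT0 : (0 : ℝ) < T := by
    by_contra h
    push Not at h
    have h2 : (T : ℝ) * E ≤ 0 := mul_nonpos_of_nonpos_of_nonneg h hE0.le
    linarith
  have hEW : E * Wr ≤ Real.exp (3 / 2 * L ^ v) := by
    have h1 : 0 ≤ E * Wr := by positivity
    rw [hWr] at h1 ⊢
    linarith
  have hEW1 : 1 ≤ E * Wr := by nlinarith
  have b10 := S.has.b10
  rw [← S.hl] at b10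
  obtain ⟨n1, n2, n3, n4⟩ := num1 e L l Y (E * Wr) (E * Wr) Q (Real.log Y) A v S.he b2 hY1 hEW1 le_rfl hQe (Real.exp_log hY0).symm hlY
    (Real.log_nonneg hY1) hEW hLv.le b10 S.has.b14 S.has.b12 S.has.b4
  have hVQ := S.VQ
  have hell := Ls_card_ge P0 S.hpr Y S.hsum
  have hSk := SY_ok S.has S.hs (subset_refl P0)
  have hφW1 : (1 : ℝ) ≤ (Nat.totient (∏ p ∈ P0, p) : ℝ) := by exact_mod_cast Nat.totient_pos.2 hWpos
  have hφ0 : (0 : ℝ) < (Nat.totient (∏ p ∈ P0, p) : ℝ) := by linarith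
  have hφW : (Nat.totient (∏ p ∈ P0, p) : ℝ) ≤ Wr := by rw [hWr]; exact_mod_cast Nat.totient_le _
  have hEr : 0 ≤ 2 * ((Y : ℝ) + 1) * Q * Real.exp (-(l / 4)) := by positivity
  obtain ⟨Er, hErd⟩ : ∃ Er : ℝ, Er = 2 * ((Y : ℝ) + 1) * Q * Real.exp (-(l / 4)) := ⟨_, rfl⟩
  have hQT : (Q : ℝ) / (E * Wr) ≤ T / Wr := by
    rw [div_le_div_iff₀ (by positivity) hWr0]
    calc (Q : ℝ) * Wr ≤ (T * E) * Wr := by gcongr
      _ = _ := by ring
  refine ⟨S.hpr, by exact_mod_cast hT0, hTQ, S.hQ2, S.hD1, S.hf0, he, S.he1, hEr, ?_, ?_, ?_, S.hbt, ?_, ?_, ?_, ?_, ?_,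
    ?_, ?_, ?_, ?_, ?_, ?_, ?_, ?_, ?_⟩
  · intro d c hd hPd
    exact cls_SY _ S.hpr Y d c hd hPd
  · -- Y V ≤ Q
    exact_mod_cast hVQ.1
  · exact_mod_cast hVQ.2
  · -- N₀ ≤ sqrt Q
    rw [Nat.le_sqrt']
    have b17 := S.has.b17
    have h1 : ((N₀ : ℝ)) ^ 2 ≤ Q := by
      have h2 : (N₀ : ℝ) ≤ Real.exp (L / 4) := by linarith
      calc ((N₀ : ℝ)) ^ 2 ≤ (Real.exp (L / 4)) ^ 2 := by gcongr
        _ = Real.exp (L / 2) := by rw [← Real.exp_nat_mul]; congr 1; push_cast; ring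
        _ ≤ Q := by rw [hQe]; exact Real.exp_le_exp.2 (by linarith)
    exact_mod_cast h1
  · -- modulus 1
    have h := S.psiR one_pos (one_dvd _) le_rfl (by exact_mod_cast hY1) S.hf1
    rwa [one_mul] at h
  · -- modulus W
    have h := S.psiR hWpos dvd_rfl le_rfl (by exact_mod_cast hY1) S.hf1
    rwa [one_mul] at h
  · -- modulus r V
    intro r hr1 hrY hfr
    exact S.psiR hVpos dvd_rfl hr1 hrY hfr
  · -- the sifted set is not empty
    have : (0 : ℝ) < ((Ls (∏ p ∈ P0, p) Y).card : ℝ) := by linarith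
    exact_mod_cast this
  · -- k0
    rw [← S.hL]
    have b7 := S.has.b7
    have y1 := S.hs.y1
    obtain ⟨ell, hellr⟩ : ∃ ell : ℝ, ell = ((Ls (∏ p ∈ P0, p) Y).card : ℝ) := ⟨_, rfl⟩
    rw [← hellr] at hell ⊢
    have h1 : e * (Y / 2) ≤ e * ell := mul_le_mul_of_nonneg_left hell he.le
    have h2 : e * L ^ (1 + β) ≤ e * Y := mul_le_mul_of_nonneg_left y1 he.le
    linarith
  · -- k1
    exact k1_ok he S.hD hY0 hell hSk
  · -- k2
    rw [← S.hL, ← hErd]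
    rw [← hErd] at n1 hEr
    have h1 : 4 * (Y : ℝ) * Er * Wr * L ≤ e / 2 * T := by
      have h2 : (4 * (Y : ℝ) * Er * Wr * L) * E ≤ (e / 2 * T) * E := by
        calc (4 * (Y : ℝ) * Er * Wr * L) * E = 4 * Y * Er * (E * Wr) * L := by ring
          _ ≤ e / 2 * Q := n1
          _ ≤ e / 2 * (T * E) := by gcongr
          _ = _ := by ring
      exact le_of_mul_le_mul_right h2 hE0
    refine le_trans ?_ h1
    gcongr
  · -- k3
    exact k3_ok he S.hfsq hY0 hell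
  · -- k3'
    rw [← S.hL, ← hWr]
    have h2 : ((Nat.sqrt Q : ℕ) : ℝ) + 2 ≤ 2 * Real.sqrt Q := by
      have := Real.nat_sqrt_le_real_sqrt (a := Q)
      linarith
    have h1 : (2 * (Y : ℝ) * (Wr * (((Nat.sqrt Q : ℕ) : ℝ) + 2)) * L) * E ≤ T * E := by
      calc (2 * (Y : ℝ) * (Wr * (((Nat.sqrt Q : ℕ) : ℝ) + 2)) * L) * E ≤
          (2 * (Y : ℝ) * (Wr * (2 * Real.sqrt Q)) * L) * E := by gcongr
        _ = 4 * Y * (E * Wr) * Real.sqrt Q * L := by ring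
        _ ≤ Q := n3
        _ ≤ _ := hT
    exact le_of_mul_le_mul_right h1 hE0
  · -- k4
    have h1 : e / 2 * (Q / (E * Wr)) ≤ e / 2 * (T / (Nat.totient (∏ p ∈ P0, p) : ℝ)) := by
      apply mul_le_mul_of_nonneg_left _ (by linarith)
      refine hQT.trans ?_
      gcongr
    refine le_trans ?_ h1
    refine le_trans (le_of_eq ?_) n2
    unfold R2
    push_cast
    ring
  · -- k5
    rw [← S.hL]
    have h5 := logYQ hY1 hQ0
    rw [← S.hL] at h5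
    have b13 := S.has.b13
    have h6 : (1 + e / 2) * L = L + e / 2 * L := by ring
    rw [h6]
    linarith
  · -- k6
    intro q hq
    have b15 := S.has.b15
    rw [mem_Ioc] at hq
    have hq0 : 0 < q := by omega
    have hq0r : (0 : ℝ) < q := by exact_mod_cast hq0
    have hq2 : (q : ℝ) ≤ 2 * Q := by exact_mod_cast hq.2
    have h1 := pow_omega_le hq0
    have h2 : ((2 : ℝ) ^ q.primeFactors.card) ^ 8 ≤ 256 ^ 257 * (q : ℝ) := by exact_mod_cast h1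
    have hlq : L ≤ Real.log q := by
      rw [S.hL]; apply Real.log_le_log hQ0; exact_mod_cast hq.1.le
    have hlq2 : Real.log q ≤ 2 * L := by
      have h3 : Real.log q ≤ Real.log (2 * Q) := by
        apply Real.log_le_log hq0r; exact_mod_cast hq.2
      rw [Real.log_mul (by norm_num) hQ0.ne', ← S.hL] at h3
      have h4 := Real.log_two_lt_d9
      linarith
    have h3 := tot_low hq0 (by linarith)
    rw [← hWr] at hE
    have h4 := num2 e L (2 * E * Wr) v _ _ q (Real.log q) he b2 (by positivity) hE hLv.le (Real.exp_log hq0r).symm hlq hlq2 h2 h3 b15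
    refine h4.trans ?_
    rw [← hWr]
    apply mul_le_mul_of_nonneg_left _ he.le
    have hφq : (0 : ℝ) ≤ (Nat.totient q : ℝ) := Nat.cast_nonneg _
    rw [div_mul_div_comm, div_le_div_iff₀ (by positivity) (by positivity)]
    have h5 : (q : ℝ) ≤ T * (2 * E) := by linarith
    calc (Nat.totient q : ℝ) * (Wr * q) ≤ (Nat.totient q : ℝ) * (Wr * (T * (2 * E))) := by gcongr
      _ = _ := by ring
  · -- k7
    have hom : ((2 : ℝ) ^ (∏ p ∈ P0, p).primeFactors.card) ≤ ((∏ p ∈ P0, p : ℕ) : ℝ) := by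
      exact_mod_cast pow_omega_le_self hWpos
    have h2 : (1 : ℝ) ≤ ((∏ p ∈ P0, p : ℕ) : ℝ) := by exact_mod_cast hWpos
    have h3 := num3 e L v ((∏ p ∈ P0, p : ℕ) : ℝ) _ _ 1 _ D Q he (by exact_mod_cast S.hD1) (by norm_num)
      h2 h2 le_rfl hφW1 (by positivity) hom S.hprod hLv.le hQe S.has.b16
    refine le_trans ?_ h3
    have h4 : 0 ≤ (((∏ p ∈ P0, p : ℕ) : ℝ) / (Nat.totient (∏ p ∈ P0, p) : ℝ)) * ((2 : ℝ) ^ (∏ p ∈ P0, p).primeFactors.card * D) := by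
      positivity
    linarith

end

theorem exists_varA (c1 v v' A β C e : ℝ) (hc1 : 0 < c1) (hcv : c1 ≤ v) (hvv : v < v') (hv1 : v' ≤ 1 / 40) (hβ : 0 < β) (hA : 0 < A)
    (he : 0 < e) (he1 : e ≤ 1 / 3) :
    ∃ D N₀ : ℕ, ∀ᶠ Q : ℕ in atTop, ∃ ps f : ℕ, ∀ P0 : Finset ℕ, P0 ⊆ win c1 v Q → ps ∉ P0 →
      ∑ p ∈ P0, 1 / (p : ℝ) ≤ 1 / 2 → ∀ Y : ℕ, Sc A β (Real.log Q) C P0 Y →
      ∃ Er : ℝ, ∀ T : ℕ, T ≤ Q → (Q : ℝ) ≤ T * Real.exp ((Real.log Q) ^ v) →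
        VarA Q T Y (SY P0 Y).card D f N₀ P0 Er e := by
  classical
  have hv : 0 < v := by linarith
  have hv' : 0 < v' := by linarith
  obtain ⟨N₀, hN₀3, hbt⟩ := bt3
  obtain ⟨D, hD⟩ : ∃ D : ℕ, D = ⌈(64 / e) ^ 2⌉₊ := ⟨_, rfl⟩
  obtain ⟨Z, hZ⟩ : ∃ Z : ℕ, Z = ⌈(480 / e) ^ 2⌉₊ := ⟨_, rfl⟩
  obtain ⟨l0, hl04, hpap⟩ := pap Z
  have hDr : (64 / e) ^ 2 ≤ (D : ℝ) := by rw [hD]; exact Nat.le_ceil _
  have hZr : (480 / e) ^ 2 ≤ (Z : ℝ) := by rw [hZ]; exact Nat.le_ceil _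
  have hD1 : 1 ≤ D := by rw [hD]; exact Nat.one_le_iff_ne_zero.2 (Nat.ceil_pos.2 (by positivity)).ne'
  have hZ1 : 1 ≤ Z := by rw [hZ]; exact Nat.one_le_iff_ne_zero.2 (Nat.ceil_pos.2 (by positivity)).ne'
  clear hD hZ
  have tL : Tendsto (fun x : ℕ => Real.log (x : ℝ)) atTop atTop :=
    Real.tendsto_log_atTop.comp tendsto_natCast_atTop_atTop
  refine ⟨D, N₀, ?_⟩
  filter_upwards [tL.eventually (As_ev c1 v' A β e l0 D (N₀ + 1) Z C hc1 hv' hv1 hβ he hA),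
    tL.eventually (as_pow_pow v v' 2 hvv),
    tL.eventually ((tendsto_rpow_atTop hv).eventually_ge_atTop (2 : ℝ)), eventually_ge_atTop 2] with Q has hpw hpv hQ2
  have hwinprime : ∀ p ∈ win c1 v Q, p.Prime := by
    intro p hp
    unfold win at hp
    exact (mem_filter.1 hp).2
  have b2 := has.b2
  obtain ⟨fs, hfs, hAP⟩ := hpap _ has.b3
  obtain ⟨ps, f, hfZ, hf0, hexc⟩ := exc_choice (win c1 v Q) hwinprime fs Z hfs
  refine ⟨ps, f, ?_⟩
  intro P0 hP0 hps hsP Y hsc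
  obtain ⟨w1, w2, w3, w4⟩ := win_facts c1 v Q (by linarith) P0 hP0 hv
  have hf1 : ¬ f ∣ 1 := by
    intro h
    have h2 := Nat.le_of_dvd one_pos h
    rcases hfZ with h1 | h1
    · omega
    · have := (hwinprime f h1).one_lt
      omega
  have hfsqrt : 480 / e ≤ Real.sqrt f := by
    apply Real.le_sqrt_of_sq_le
    rcases hfZ with h1 | h1
    · have : (Z : ℝ) ≤ f := by exact_mod_cast h1.le
      linarith
    · unfold win at h1
      rw [mem_filter, mem_Ioc] at h1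
      have h3 : (Real.log Q) ^ c1 < (f : ℝ) := (Nat.floor_lt (Real.rpow_nonneg (by linarith) _)).1 h1.1.1
      have := has.b11
      linarith
  have hE : 2 * Real.exp ((Real.log Q) ^ v) * ((∏ p ∈ P0, p : ℕ) : ℝ) ≤ Real.exp (3 / 2 * (Real.log Q) ^ v') := by
    have h2 : (2 : ℝ) ≤ Real.exp 1 := by
      have := Real.add_one_le_exp (1 : ℝ)
      linarith
    calc 2 * Real.exp ((Real.log Q) ^ v) * ((∏ p ∈ P0, p : ℕ) : ℝ) ≤
        Real.exp 1 * Real.exp ((Real.log Q) ^ v) * Real.exp (3 / 2 * (Real.log Q) ^ v) := by gcongr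
      _ = Real.exp (1 + (Real.log Q) ^ v + 3 / 2 * (Real.log Q) ^ v) := by rw [Real.exp_add, Real.exp_add]
      _ ≤ _ := by
          apply Real.exp_le_exp.2
          linarith
  have w4' : ((∏ p ∈ P0, p : ℕ) : ℝ) ≤ Real.exp (3 / 2 * (Real.log Q) ^ v') := by
    refine le_trans ?_ hE
    have h1 : (1 : ℝ) ≤ Real.exp ((Real.log Q) ^ v) := Real.one_le_exp (by linarith)
    have h2 : (0 : ℝ) ≤ ((∏ p ∈ P0, p : ℕ) : ℝ) := Nat.cast_nonneg _
    nlinarith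
  have S : Stg c1 v' A β e l0 C (Real.log Q) ((Real.log Q) ^ (1 / 20 : ℝ) / 2) D N₀ Z Q fs f P0 Y :=
    { hv := hv', hβ := hβ, he := he, he1 := he1, hA := hA, hL := rfl, hl := rfl, hQ2 := hQ2, has := has, hs := hsc,
      hD := hDr, hD1 := hD1, hf0 := hf0, hf1 := hf1, hfsq := hfsqrt, hsum := hsP, hpr := w1,
      hprod := w4', hpsi := fun m hm hml hmf => psi_ok has hsc hβ rfl rfl hAP m hm hml hmf,
      hexc := fun r hr => hexc P0 hP0 hps r hr, hbt := hbt }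
  exact ⟨_, fun T hTQ hT => stg_varA S (Real.one_le_exp (by linarith)) hE hTQ hT⟩

end Pool.Agent.H527.F
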