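import Mathlib
import Pool.Agent.H527.N.N9
import Pool.Agent.H527.F.F5

/-! Chebyshev's inequality, with the residue class fixed. -/

set_option autoImplicit false

namespace Pool.Agent.H527.F

open Finset Filter Pool.Agent.H527.AP Pool.Agent.H527.S Pool.Agent.H527.M Pool.Agent.H527.N

/-- the moduli which are coprime to `a` and bad for `a` -/
noncomputable def BadQ (Q Y : ℕ) (P : Finset ℕ) (η : ℝ) (a : ℕ) : Finset ℕ :=
  (Ioc Q (2 * Q)).filter (fun q => a.Coprime q ∧ ¬ |(Nn Y q a : ℝ) - mu Q Y P q| ≤ η * mu Q Y P q)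

theorem muA_ge {Q A Y k D f N₀ : ℕ} {P : Finset ℕ} {Er e : ℝ} (V : VarA Q A Y k D f N₀ P Er e) {q : ℕ} (hq : 0 < q) :
    hm Q Y P * (∏ p ∈ P, p : ℕ) ≤ mu Q Y P q := by
  obtain ⟨hK, hh, _⟩ := V.KQ
  have hφq : (0 : ℝ) < (Nat.totient q : ℝ) := by exact_mod_cast Nat.totient_pos.2 hq
  unfold mu
  apply le_mul_of_one_le_right (by positivity)
  rw [one_le_div hφq]
  exact_mod_cast Nat.totient_le q

theorem chebA {Q A Y k D f N₀ : ℕ} {P : Finset ℕ} {Er e η : ℝ} (V : VarA Q A Y k D f N₀ P Er e) (hη : 0 < η) :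
    ((∏ p ∈ P, p : ℕ) : ℝ) * ∑ a ∈ (Ioc 0 A).filter (fun a => (∏ p ∈ P, p) ∣ a), ((BadQ Q Y P η a).card : ℝ) ≤
      60 * e / η ^ 2 * ((Q : ℝ) * A) := by
  classical
  obtain ⟨b1, b2, b3, b4, b5, b6, b7⟩ := V.basic
  obtain ⟨hK, hh, hKh⟩ := V.KQ
  have hvar := V.variance
  obtain ⟨W, hW⟩ : ∃ W : ℝ, W = ((∏ p ∈ P, p : ℕ) : ℝ) := ⟨_, rfl⟩
  have hW0 : 0 < W := by rw [hW]; exact b5
  have hφW : (Nat.totient (∏ p ∈ P, p) : ℝ) ≤ W := by rw [hW]; exact_mod_cast Nat.totient_le _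
  -- exchange the order
  have h1 : ∑ a ∈ (Ioc 0 A).filter (fun a => (∏ p ∈ P, p) ∣ a), ((BadQ Q Y P η a).card : ℝ) =
      ∑ q ∈ QW Q (∏ p ∈ P, p), (((rows (∏ p ∈ P, p) q 0 A).filter
        (fun a => ¬ |(Nn Y q a : ℝ) - mu Q Y P q| ≤ η * mu Q Y P q)).card : ℝ) := by
    have h2 : ∀ a ∈ (Ioc 0 A).filter (fun a => (∏ p ∈ P, p) ∣ a), BadQ Q Y P η a =
        (QW Q (∏ p ∈ P, p)).filter (fun q => a.Coprime q ∧ ¬ |(Nn Y q a : ℝ) - mu Q Y P q| ≤ η * mu Q Y P q) := by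
      intro a ha
      rw [mem_filter] at ha
      unfold BadQ QW
      ext q
      simp only [mem_filter]
      constructor
      · rintro ⟨h3, h4, h5⟩
        exact ⟨⟨h3, (h4.coprime_dvd_left ha.2).symm⟩, h4, h5⟩
      · rintro ⟨⟨h3, _⟩, h4, h5⟩
        exact ⟨h3, h4, h5⟩
    rw [sum_congr rfl fun a ha => by rw [h2 a ha]]
    simp_rw [card_filter]
    push_cast
    rw [sum_comm]
    apply sum_congr rfl
    intro q _
    unfold rows
    rw [sum_filter, sum_filter]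
    apply sum_congr rfl
    intro a _
    by_cases c1 : (∏ p ∈ P, p) ∣ a
    · by_cases c2 : a.Coprime q
      · simp only [c1, eq_true c2, true_and, if_true]
      · simp only [c1, eq_false c2, false_and, and_false, if_false, if_true]
    · simp only [c1, false_and, if_false]
  rw [h1]
  have h3 : ∀ q ∈ QW Q (∏ p ∈ P, p), (((rows (∏ p ∈ P, p) q 0 A).filter
        (fun a => ¬ |(Nn Y q a : ℝ) - mu Q Y P q| ≤ η * mu Q Y P q)).card : ℝ) * (η * (hm Q Y P * W)) ^ 2 ≤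
      ∑ a ∈ rows (∏ p ∈ P, p) q 0 A, ((Nn Y q a : ℝ) - mu Q Y P q) ^ 2 := by
    intro q hq
    unfold QW at hq
    rw [mem_filter, mem_Ioc] at hq
    have hmu := muA_ge V (show 0 < q by omega)
    rw [← hW] at hmu
    have hmu0 : 0 ≤ hm Q Y P * W := by positivity
    have h2 : ∑ a ∈ (rows (∏ p ∈ P, p) q 0 A).filter
        (fun a => ¬ |(Nn Y q a : ℝ) - mu Q Y P q| ≤ η * mu Q Y P q), (η * (hm Q Y P * W)) ^ 2 ≤
        ∑ a ∈ rows (∏ p ∈ P, p) q 0 A, ((Nn Y q a : ℝ) - mu Q Y P q) ^ 2 := by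
      refine le_trans (sum_le_sum ?_) (sum_le_sum_of_subset_of_nonneg (filter_subset _ _) (fun a _ _ => sq_nonneg _))
      intro a ha
      rw [mem_filter, not_le] at ha
      rw [← sq_abs ((Nn Y q a : ℝ) - mu Q Y P q)]
      apply pow_le_pow_left₀ (by positivity)
      refine le_trans ?_ ha.2.le
      gcongr
    refine le_trans (le_of_eq ?_) h2
    rw [sum_const, nsmul_eq_mul]
  have h4 := (sum_le_sum h3).trans hvar
  rw [← sum_mul, ← hKh] at h4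
  have h5 : 0 < (η * (hm Q Y P * W)) ^ 2 := by positivity
  rw [← le_div_iff₀ h5] at h4
  rw [← hW]
  have he := V.he
  refine (mul_le_mul_of_nonneg_left h4 hW0.le).trans ?_
  calc W * (60 * e * (hm Q Y P ^ 2 * (Nat.totient (∏ p ∈ P, p) : ℝ) * ((Q : ℝ) * A)) / (η * (hm Q Y P * W)) ^ 2) ≤
      W * (60 * e * (hm Q Y P ^ 2 * W * ((Q : ℝ) * A)) / (η * (hm Q Y P * W)) ^ 2) := by gcongr
    _ = _ := by field_simp

/-- few residues are bad for many moduli -/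
theorem typA {Q A Y k D f N₀ : ℕ} {P : Finset ℕ} {Er e η κ : ℝ} (V : VarA Q A Y k D f N₀ P Er e) (hη : 0 < η) (hκ : 0 < κ) :
    ((∏ p ∈ P, p : ℕ) : ℝ) * (((Ioc 0 A).filter (fun a => (∏ p ∈ P, p) ∣ a ∧
      ¬ ((BadQ Q Y P η a).card : ℝ) ≤ κ * Q)).card : ℝ) ≤ 60 * e / (η ^ 2 * κ) * A := by
  classical
  obtain ⟨b1, b2, b3, b4, b5, b6, b7⟩ := V.basic
  have h1 := chebA V hη
  have h2 : (((Ioc 0 A).filter (fun a => (∏ p ∈ P, p) ∣ a ∧ ¬ ((BadQ Q Y P η a).card : ℝ) ≤ κ * Q)).card : ℝ) * (κ * Q) ≤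
      ∑ a ∈ (Ioc 0 A).filter (fun a => (∏ p ∈ P, p) ∣ a), ((BadQ Q Y P η a).card : ℝ) := by
    rw [← nsmul_eq_mul]
    refine le_trans (card_nsmul_le_sum _ (fun a => ((BadQ Q Y P η a).card : ℝ)) (κ * Q) ?_) ?_
    · intro a ha
      rw [mem_filter, not_le] at ha
      exact ha.2.2.le
    · apply sum_le_sum_of_subset_of_nonneg
      · intro a ha
        rw [mem_filter] at ha ⊢
        exact ⟨ha.1, ha.2.1⟩
      · intro a _ _
        exact Nat.cast_nonneg _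
  obtain ⟨W, hW⟩ : ∃ W : ℝ, W = ((∏ p ∈ P, p : ℕ) : ℝ) := ⟨_, rfl⟩
  obtain ⟨c, hc⟩ : ∃ c : ℝ, c = (((Ioc 0 A).filter (fun a => (∏ p ∈ P, p) ∣ a ∧
      ¬ ((BadQ Q Y P η a).card : ℝ) ≤ κ * Q)).card : ℝ) := ⟨_, rfl⟩
  rw [← hW] at h1 b5 ⊢
  rw [← hc] at h2 ⊢
  have h3 : W * c * (κ * Q) ≤ 60 * e / (η ^ 2 * κ) * A * (κ * Q) := by
    calc W * c * (κ * Q) = W * (c * (κ * Q)) := by ring
      _ ≤ W * ∑ a ∈ (Ioc 0 A).filter (fun a => (∏ p ∈ P, p) ∣ a), ((BadQ Q Y P η a).card : ℝ) := by gcongr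
      _ ≤ 60 * e / η ^ 2 * ((Q : ℝ) * A) := h1
      _ = _ := by field_simp
  exact le_of_mul_le_mul_right h3 (by positivity)

end Pool.Agent.H527.F
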