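import Mathlib
import Pool.Agent.H527.N.N29
import Pool.Agent.H527.F.F6

/-! The windows at `X`, for several moduli ranges at once. -/

set_option autoImplicit false

namespace Pool.Agent.H527.F

open Finset Filter Topology Pool.Agent.H527.AP Pool.Agent.H527.S Pool.Agent.H527.M Pool.Agent.H527.N

/-- the window, without the removed primes -/
noncomputable def Wx {ι : Type} (u : ι → ℝ) (z : ℝ) (X : ℕ) (PS : Finset ℕ) (i : ι) : Finset ℕ :=
  (win (lo u z i) (u i) X).filter (fun p => p ∉ PS)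

section
variable {J : ℕ} {B : Fin J → ℝ} {par : Fin J → ℕ} {v : ℝ} {u : Fin J × Bool → ℝ} {k : Fin J → Fin J × Bool → ℕ}
    {g z c1 β δ1 η0 A : ℝ} {C : Finset ℝ} {X : ℕ}

theorem RWx (H : Pf B par v u k g z c1 β δ1) (F : Lq B u k g z c1 β δ1 η0 A C X) (PS : Finset ℕ) :
    RW u (lo u z) (Real.log X) z (Wx u z X PS) := by
  have hnot : ∃ ps : ℕ, ∀ i, ps ∉ win (lo u z i) (u i) X := ⟨0, fun i hi => by
    have := (win_mem (by linarith [F.hL]) hi).1
    exact absurd this Nat.not_prime_zero⟩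
  obtain ⟨ps, hps⟩ := hnot
  have h1 := H.RWn F ps
  apply h1.sub
  intro i p hp
  unfold Wx at hp
  unfold Wn
  rw [mem_filter] at hp ⊢
  refine ⟨hp.1, fun h => hps i (by rw [← h]; exact hp.1)⟩

/-- general facts on the union of the windows -/
theorem P0x (H : Pf B par v u k g z c1 β δ1) (F : Lq B u k g z c1 β δ1 η0 A C X) (PS : Finset ℕ) :
    PU (Wx u z X PS) ⊆ win c1 v X ∧ (∀ ps ∈ PS, ps ∉ PU (Wx u z X PS)) ∧ ∑ p ∈ PU (Wx u z X PS), 1 / (p : ℝ) ≤ 1 / 2 ∧
    (∀ p ∈ PU (Wx u z X PS), p.Prime) ∧ ∀ p ∈ PU (Wx u z X PS), 1 / (p : ℝ) ≤ (Real.log X) ^ (-c1) := by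
  have hL := F.hL
  have hL0 : 0 < Real.log X := by linarith
  have hsub : PU (Wx u z X PS) ⊆ win c1 v X := by
    intro p hp
    unfold PU Wx at hp
    rw [mem_biUnion] at hp
    obtain ⟨i, _, hi⟩ := hp
    have h1 := (mem_filter.1 hi).1
    unfold win at h1 ⊢
    rw [mem_filter, mem_Ioc] at h1 ⊢
    refine ⟨⟨lt_of_le_of_lt (Nat.floor_le_floor ?_) h1.1.1, h1.1.2.trans (Nat.floor_le_floor ?_)⟩, h1.2⟩
    · exact Real.rpow_le_rpow_of_exponent_le (by linarith) (H.c1lo i)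
    · exact Real.rpow_le_rpow_of_exponent_le (by linarith) (H.huv i)
  refine ⟨hsub, ?_, ?_, ?_, ?_⟩
  · intro ps hps hp
    unfold PU Wx at hp
    rw [mem_biUnion] at hp
    obtain ⟨i, _, hi⟩ := hp
    exact (mem_filter.1 hi).2 hps
  · rw [sum_PU (RWx H F PS).hd]
    refine le_trans (sum_le_sum (g := fun i => 2 * z ^ u i) ?_) H.hsum
    intro i _
    exact (RWx H F PS).sup i
  · intro p hp
    exact (win_mem hL0 (hsub hp)).1
  · intro p hp
    have h1 := (win_mem hL0 (hsub hp)).2.1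
    rw [Real.rpow_neg hL0.le, ← one_div]
    apply one_div_le_one_div_of_le (Real.rpow_pos_of_pos hL0 _) h1.le

/-- **the deviation** -/
theorem devx (H : Pf B par v u k g z c1 β δ1) (F : Lq B u k g z c1 β δ1 η0 A C X) (PS : Finset ℕ)
    (hPS : ∀ i, (PS.card : ℝ) * (Real.log X) ^ (-c1) ≤ z ^ u i / 8) (j : Fin J) {c : ℝ} (hc : c ∈ C) :
    δ1 ≤ (-1) ^ (∑ i, k j i) * (∏ p ∈ PU (Wx u z X PS), (1 - 1 / (p : ℝ)) -
      EY (PU (Wx u z X PS)) (Ysc c (B j) X)) := by
  classical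
  have hL := F.hL
  have hRn := RWx H F PS
  obtain ⟨g1, g2, g3, g4, g5⟩ := P0x H F PS
  have hLc : 0 ≤ (Real.log X) ^ (-c1) := Real.rpow_nonneg (by linarith) _
  have h1 := hRn.dev (by linarith) H.hz0 H.hz1.le (H.SCj F j hc) ((Real.log X) ^ (-c1)) hLc g5 (F.hkm j) (by
    intro i
    have e1 : ∑ p ∈ win (lo u z i) (u i) X, 1 / (p : ℝ) ≤ ∑ p ∈ Wx u z X PS i, 1 / (p : ℝ) + (PS.card : ℝ) * (Real.log X) ^ (-c1) := by
      unfold Wx
      rw [← sum_filter_add_sum_filter_not (win (lo u z i) (u i) X) (fun p => p ∉ PS)]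
      have e2 : ∑ p ∈ (win (lo u z i) (u i) X).filter (fun p => ¬ p ∉ PS), 1 / (p : ℝ) ≤ (PS.card : ℝ) * (Real.log X) ^ (-c1) := by
        have e3 : ((win (lo u z i) (u i) X).filter (fun p => ¬ p ∉ PS)).card ≤ PS.card := by
          apply card_le_card
          intro p hp
          rw [mem_filter, not_not] at hp
          exact hp.2
        have e4 : ∀ p ∈ (win (lo u z i) (u i) X).filter (fun p => ¬ p ∉ PS), 1 / (p : ℝ) ≤ (Real.log X) ^ (-c1) := by
          intro p hp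
          have h2 := (win_mem (by linarith) (mem_filter.1 hp).1).2.1
          have h3 := Real.rpow_le_rpow_of_exponent_le (show 1 ≤ Real.log X by linarith) (H.c1lo i)
          rw [Real.rpow_neg (by linarith), ← one_div]
          apply one_div_le_one_div_of_le (Real.rpow_pos_of_pos (by linarith) _)
          linarith
        have e5 := sum_le_card_nsmul _ _ _ e4
        rw [nsmul_eq_mul] at e5
        refine e5.trans ?_
        apply mul_le_mul_of_nonneg_right _ hLc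
        exact_mod_cast e3
      linarith
    have e6 := F.slo i
    have e7 := hPS i
    have e8 : 0 < z ^ u i := Real.rpow_pos_of_pos H.hz0 _
    linarith) _ le_rfl (H.hcst j)
  exact (H.hδj j).trans h1

/-- the error term -/
theorem SYx (H : Pf B par v u k g z c1 β δ1) (F : Lq B u k g z c1 β δ1 η0 A C X) (PS : Finset ℕ) (j : Fin J) {c : ℝ}
    (hc : c ∈ C) : ((SY (PU (Wx u z X PS)) (Ysc c (B j) X)).card : ℝ) ≤ δ1 / 8 * (Ysc c (B j) X : ℝ) ∧
    ((SY (PU (Wx u z X PS)) (Ysc c (B j) X)).card : ℝ) * (Real.log X) ^ β ≤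
      Real.exp (Fintype.card (Fin J × Bool)) * (Ysc c (B j) X : ℝ) := by
  have hL := F.hL
  have hL0 : 0 < Real.log X := by linarith
  have h1 := (RWx H F PS).card_SY (by linarith) (H.SCj F j hc)
  have h2 := F.y5 j
  have h3 := F.y1 j c hc
  have hδ := H.hδ
  constructor
  · calc ((SY (PU (Wx u z X PS)) (Ysc c (B j) X)).card : ℝ) ≤ (Real.log X) ^ (B j - g) * Real.exp (Fintype.card (Fin J × Bool)) := h1
      _ = Real.exp (Fintype.card (Fin J × Bool)) * (Real.log X) ^ (B j - g) := mul_comm _ _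
      _ ≤ δ1 / 8 * (Real.log X) ^ (B j - g / 2) := h2
      _ ≤ _ := by gcongr
  · have h4 : (Real.log X) ^ (B j - g) * (Real.log X) ^ β ≤ (Real.log X) ^ (B j - g / 2) := by
      rw [← Real.rpow_add hL0]
      apply Real.rpow_le_rpow_of_exponent_le (by linarith)
      have := H.hβg
      linarith
    calc ((SY (PU (Wx u z X PS)) (Ysc c (B j) X)).card : ℝ) * (Real.log X) ^ β ≤
          ((Real.log X) ^ (B j - g) * Real.exp (Fintype.card (Fin J × Bool))) * (Real.log X) ^ β := by gcongr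
      _ = Real.exp (Fintype.card (Fin J × Bool)) * ((Real.log X) ^ (B j - g) * (Real.log X) ^ β) := by ring
      _ ≤ Real.exp (Fintype.card (Fin J × Bool)) * (Real.log X) ^ (B j - g / 2) := by gcongr
      _ ≤ _ := by gcongr

/-- the number of primes in the row, for a good pair -/
theorem goodx (H : Pf B par v u k g z c1 β δ1) (F : Lq B u k g z c1 β δ1 η0 A C X) (PS : Finset ℕ)
    (hPS : ∀ i, (PS.card : ℝ) * (Real.log X) ^ (-c1) ≤ z ^ u i / 8) (j : Fin J) {c : ℝ} (hc : c ∈ C) {Q q a : ℕ}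
    (hQ : 1 ≤ Real.log Q) (hq0 : 0 < q)
    (hY : |(Nn (Ysc c (B j) X) q a : ℝ) - mu Q (Ysc c (B j) X) (PU (Wx u z X PS)) q| ≤
      δ1 / 8 * mu Q (Ysc c (B j) X) (PU (Wx u z X PS)) q) :
    (par j % 2 = 1 → (1 + δ1 / 2) * ((Ysc c (B j) X : ℝ) * ((q : ℝ) / (Nat.totient q * Real.log Q))) ≤
      (Nn (Ysc c (B j) X) q a : ℝ)) ∧
    (par j % 2 = 0 → (Nn (Ysc c (B j) X) q a : ℝ) ≤
      (1 - δ1 / 2) * ((Ysc c (B j) X : ℝ) * ((q : ℝ) / (Nat.totient q * Real.log Q)))) := by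
  classical
  obtain ⟨g1, g2, g3, g4, g5⟩ := P0x H F PS
  have hL := F.hL
  have hPpr := g4
  have hPr1 : ∏ p ∈ PU (Wx u z X PS), (1 - 1 / (p : ℝ)) ≤ 1 := by
    apply prod_le_one
    · intro p hp
      have := (hPpr p hp).one_lt
      have h2 : (1 : ℝ) ≤ p := by exact_mod_cast this.le
      have h3 : 1 / (p : ℝ) ≤ 1 := by rw [div_le_one (by linarith)]; exact h2
      linarith
    · intro p _
      have : (0 : ℝ) ≤ 1 / (p : ℝ) := by positivity
      linarith
  have hPr0 : 0 < ∏ p ∈ PU (Wx u z X PS), (1 - 1 / (p : ℝ)) := by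
    apply prod_pos
    intro p hp
    have := (hPpr p hp).one_lt
    have h2 : (1 : ℝ) < p := by exact_mod_cast this
    have h3 : 1 / (p : ℝ) < 1 := by rw [div_lt_one (by linarith)]; exact h2
    linarith
  have hφ : (0 : ℝ) < (Nat.totient q : ℝ) := by exact_mod_cast Nat.totient_pos.2 hq0
  have hδ := H.hδ
  have hδ1 := H.hδ1
  rw [mu_eq hPpr] at hY
  have hdev := devx H F PS hPS j hc
  have hS2 := (SYx H F PS j hc).1
  have hcnt := count_all_SY _ hPpr (Ysc c (B j) X)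
  have hY0 : (0 : ℝ) < (Ysc c (B j) X : ℝ) := by
    have h1 := F.y1 j c hc
    have h2 : 0 < (Real.log X) ^ (B j - g / 2) := Real.rpow_pos_of_pos (by linarith) _
    linarith
  rw [abs_le] at hcnt hY
  have hq' : 0 ≤ (q : ℝ) / (Nat.totient q * Real.log Q) := by positivity
  constructor
  · intro hp
    have hn : (-1 : ℝ) ^ (∑ i, k j i) = -1 := by
      apply Odd.neg_one_pow
      rw [Nat.odd_iff, H.hpar j, hp]
    rw [hn] at hdev
    exact fin_pos (Nn (Ysc c (B j) X) q a) (((Ls (∏ p ∈ PU (Wx u z X PS), p) (Ysc c (B j) X)).card : ℝ))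
      (Ysc c (B j) X) (EY (PU (Wx u z X PS)) (Ysc c (B j) X)) (∏ p ∈ PU (Wx u z X PS), (1 - 1 / (p : ℝ)))
      ((SY (PU (Wx u z X PS)) (Ysc c (B j) X)).card : ℝ) δ1 ((q : ℝ) / (Nat.totient q * Real.log Q)) hY0 hPr0 hPr1
      hδ hδ1 (by linarith) (by linarith [hcnt.1]) hS2 hq' (by linarith [hY.1])
  · intro hp
    have hn : (-1 : ℝ) ^ (∑ i, k j i) = 1 := by
      apply Even.neg_one_pow
      rw [Nat.even_iff, H.hpar j, hp]
    rw [hn] at hdev
    exact fin_neg (Nn (Ysc c (B j) X) q a) (((Ls (∏ p ∈ PU (Wx u z X PS), p) (Ysc c (B j) X)).card : ℝ))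
      (Ysc c (B j) X) (EY (PU (Wx u z X PS)) (Ysc c (B j) X)) (∏ p ∈ PU (Wx u z X PS), (1 - 1 / (p : ℝ)))
      ((SY (PU (Wx u z X PS)) (Ysc c (B j) X)).card : ℝ) δ1 ((q : ℝ) / (Nat.totient q * Real.log Q)) hY0 hPr0 hPr1
      hδ (by linarith) (by linarith [hcnt.2]) hS2 hq' (by linarith [hY.2])

end

end Pool.Agent.H527.F
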