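import Mathlib
import Pool.Agent.H527.F.F7

/-! From the rows to the primes in the class. -/

set_option autoImplicit false

namespace Pool.Agent.H527.F

open Finset Filter Topology Pool.Agent.H527.AP Pool.Agent.H527.S Pool.Agent.H527.M Pool.Agent.H527.N

/-- the constants for the scales -/
noncomputable def Cx (η : ℝ) (N : ℕ) : Finset ℝ := (range (N + 4)).image (fun n => (1 + η) ^ n / (1 + η) / 4)

theorem Cx_pos {η : ℝ} (hη : 0 < η) (N : ℕ) : ∀ c ∈ Cx η N, 0 < c := by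
  intro c hc
  unfold Cx at hc
  rw [mem_image] at hc
  obtain ⟨n, _, rfl⟩ := hc
  positivity

theorem Cx_mem {η : ℝ} {N n : ℕ} (hn : n < N + 4) : (1 + η) ^ n / (1 + η) / 4 ∈ Cx η N := by
  unfold Cx
  rw [mem_image]
  exact ⟨n, mem_range.2 hn, rfl⟩

theorem transfer1 {δ η G y b : ℝ} {q a X N : ℕ} (hδ : 0 < δ) (hδ1 : δ ≤ 1 / 2) (hη : η = δ / 32) (hq0n : 0 < q)
    (ha0 : 0 < a) (haq : a ≤ q) (hG : 0 < G) (hX : 1 ≤ Real.log X) (hT1 : 1 ≤ η / 2 * ((Real.log X) ^ b / 4))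
    (hG2 : G ≤ η / 2 * ((Real.log X) ^ b / 4)) (hy0 : 0 < y) (hy1 : (Real.log X) ^ b / 4 ≤ y / q)
    (hy2 : y / q < (1 + η) ^ N * ((Real.log X) ^ b / 4))
    (p1 : (1 - η) * (y / G) ≤ (Nat.primeCounting ⌊y⌋₊ : ℝ)) (p2 : (Nat.primeCounting ⌊y⌋₊ : ℝ) ≤ (1 + η) * (y / G)) :
    ((∀ c ∈ Cx η N, (1 + δ) * ((Ysc c b X : ℝ) * ((q : ℝ) / (Nat.totient q * G))) ≤ (Nn (Ysc c b X) q a : ℝ)) →
      (1 + δ / 2) * ((Nat.primeCounting ⌊y⌋₊ : ℝ) / Nat.totient q) ≤ (pc y q a : ℝ)) ∧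
    ((∀ c ∈ Cx η N, (Nn (Ysc c b X) q a : ℝ) ≤ (1 - δ) * ((Ysc c b X : ℝ) * ((q : ℝ) / (Nat.totient q * G)))) →
      (pc y q a : ℝ) ≤ (1 - δ / 2) * ((Nat.primeCounting ⌊y⌋₊ : ℝ) / Nat.totient q)) := by
  classical
  have hη0 : 0 < η := by rw [hη]; linarith
  have hη1 : η ≤ 1 / 64 := by rw [hη]; linarith
  have hq0 : (0 : ℝ) < q := by exact_mod_cast hq0n
  obtain ⟨T0, hT0⟩ : ∃ T0 : ℝ, T0 = (Real.log X) ^ b / 4 := ⟨_, rfl⟩
  have hT00 : 0 < T0 := by rw [hT0]; have := Real.rpow_pos_of_pos (show 0 < Real.log X by linarith) b; linarith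
  obtain ⟨w, hw⟩ : ∃ w : ℝ, w = y / q := ⟨_, rfl⟩
  have hyw : y = w * q := by rw [hw]; field_simp
  rw [← hw, ← hT0] at hy1 hy2
  rw [← hT0] at hT1 hG2
  obtain ⟨n, hn1, hn2⟩ := exists_nat_pow_near (show 1 ≤ w / T0 by rw [le_div_iff₀ hT00]; linarith)
    (show (1 : ℝ) < 1 + η by linarith)
  rw [le_div_iff₀ hT00] at hn1
  rw [div_lt_iff₀ hT00] at hn2
  have hnN : n < N := by
    by_contra h
    push Not at h
    have h1 : (1 + η) ^ N ≤ (1 + η) ^ n := pow_le_pow_right₀ (by linarith) h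
    have h2 : (1 + η) ^ N * T0 ≤ (1 + η) ^ n * T0 := mul_le_mul_of_nonneg_right h1 hT00.le
    linarith
  have hT1' : 1 ≤ η / 2 * T0 ^ (1 : ℝ) := by rw [Real.rpow_one]; exact hT1
  obtain ⟨s1, s2, s3, s4⟩ := scales (L := T0) (b := 1) (y := w) (n := n) hT00 hη0 (by linarith) hT1'
    (by rw [Real.rpow_one]; exact hn1) (by rw [Real.rpow_one]; exact hn2)
  rw [Real.rpow_one] at s1 s2 s3 s4
  have hcc : ∀ m : ℕ, Ysc ((1 + η) ^ m / (1 + η) / 4) b X = ⌊(1 + η) ^ m / (1 + η) * T0⌋₊ := by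
    intro m
    unfold Ysc
    rw [hT0]
    congr 1
    ring
  have hφ : (0 : ℝ) < (Nat.totient q : ℝ) := by exact_mod_cast Nat.totient_pos.2 hq0n
  have hφq : (Nat.totient q : ℝ) ≤ q := by exact_mod_cast Nat.totient_le q
  obtain ⟨π, hπ⟩ : ∃ π : ℝ, π = (Nat.primeCounting ⌊y⌋₊ : ℝ) := ⟨_, rfl⟩
  rw [← hπ] at p1 p2 ⊢
  obtain ⟨φ, hφe⟩ : ∃ φ : ℝ, φ = (Nat.totient q : ℝ) := ⟨_, rfl⟩
  rw [← hφe] at hφ hφq ⊢
  have hw0 : 0 < w := by linarith
  constructor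
  · intro hall
    have h1 := hall _ (Cx_mem (η := η) (N := N) (show n < N + 4 by omega))
    rw [hcc] at h1
    have h2 : (Nn ⌊(1 + η) ^ n / (1 + η) * T0⌋₊ q a : ℝ) ≤ (pc y q a : ℝ) := by
      have := pc_ge (x := y) haq hq0n (Y := ⌊(1 + η) ^ n / (1 + η) * T0⌋₊) (by rw [hyw]; gcongr)
      exact_mod_cast this
    refine le_trans ?_ (h1.trans h2)
    obtain ⟨Y, hY⟩ : ∃ Y : ℝ, Y = (⌊(1 + η) ^ n / (1 + η) * T0⌋₊ : ℝ) := ⟨_, rfl⟩
    rw [← hY] at s2 ⊢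
    have h3 : (1 + δ / 2) * π * (1 + η) ^ 2 ≤ (1 + δ) * (Y * q / G) * (1 + η) ^ 2 := by
      have hr2 : 0 < (1 + η) ^ 2 := by positivity
      have hxL : 0 ≤ y / G := by positivity
      calc (1 + δ / 2) * π * (1 + η) ^ 2 ≤ (1 + δ / 2) * ((1 + η) * (y / G)) * (1 + η) ^ 2 := by gcongr
        _ = ((1 + δ / 2) * (1 + η) * (1 + η) ^ 2) * (y / G) := by ring
        _ ≤ ((1 + δ) * (1 - η)) * (y / G) := mul_le_mul_of_nonneg_right (num_pos δ η hδ hδ1 hη) hxL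
        _ = (1 + δ) * (((1 - η) * w) * (q / G)) := by rw [hyw]; ring
        _ ≤ (1 + δ) * (((1 + η) ^ 2 * Y) * (q / G)) := by gcongr
        _ = _ := by ring
    have h4 := le_of_mul_le_mul_right h3 (by positivity)
    calc (1 + δ / 2) * (π / φ) = ((1 + δ / 2) * π) / φ := by ring
      _ ≤ ((1 + δ) * (Y * q / G)) / φ := by gcongr
      _ = _ := by field_simp
  · intro hall
    have h1 := hall _ (Cx_mem (η := η) (N := N) (show n + 3 < N + 4 by omega))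
    rw [hcc] at h1
    have h2 : (pc y q a : ℝ) ≤ (Nn ⌊(1 + η) ^ (n + 3) / (1 + η) * T0⌋₊ q a : ℝ) + 1 := by
      have := pc_le (x := y) ha0 haq (by linarith) (Y := ⌊(1 + η) ^ (n + 3) / (1 + η) * T0⌋₊) (by rw [hyw]; gcongr)
      exact_mod_cast this
    refine h2.trans ?_
    obtain ⟨Y, hY⟩ : ∃ Y : ℝ, Y = (⌊(1 + η) ^ (n + 3) / (1 + η) * T0⌋₊ : ℝ) := ⟨_, rfl⟩
    rw [← hY] at s4 h1
    have h5 : 1 ≤ η * (π / φ) := by
      have h6 : y / G ≤ 2 * π := by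
        have : (1 / 2) * (y / G) ≤ (1 - η) * (y / G) := by
          apply mul_le_mul_of_nonneg_right _ (by positivity)
          linarith
        linarith
      have h7 : φ ≤ η * π := by
        have h8 : q * G ≤ η / 2 * y := by
          rw [hyw]
          calc q * G ≤ q * (η / 2 * T0) := by gcongr
            _ ≤ q * (η / 2 * w) := by gcongr
            _ = _ := by ring
        have h9 : (q : ℝ) ≤ η / 2 * (y / G) := by
          rw [← mul_div_assoc, le_div_iff₀ hG]; exact h8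
        have h10 : η / 2 * (y / G) ≤ η / 2 * (2 * π) := by gcongr
        linarith
      rw [← mul_div_assoc, le_div_iff₀ hφ]
      linarith
    have h3 : (1 - δ) * (Y * q / G) ≤ (1 - δ / 2 - η) * π := by
      have hxL : 0 ≤ y / G := by positivity
      have hδ' : 0 ≤ 1 - δ := by linarith
      calc (1 - δ) * (Y * q / G) ≤ (1 - δ) * (((1 + η) ^ 2 * w) * q / G) := by gcongr
        _ = ((1 - δ) * (1 + η) ^ 2) * (y / G) := by rw [hyw]; ring
        _ ≤ ((1 - δ / 2 - η) * (1 - η)) * (y / G) := mul_le_mul_of_nonneg_right (num_neg δ η hδ hδ1 hη) hxL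
        _ = (1 - δ / 2 - η) * ((1 - η) * (y / G)) := by ring
        _ ≤ _ := mul_le_mul_of_nonneg_left p1 (by linarith)
    have h4 : (1 - δ) * (Y * (q / (φ * G))) ≤ (1 - δ / 2 - η) * (π / φ) := by
      calc (1 - δ) * (Y * (q / (φ * G))) = ((1 - δ) * (Y * q / G)) / φ := by field_simp
        _ ≤ ((1 - δ / 2 - η) * π) / φ := by gcongr
        _ = _ := by ring
    calc (Nn ⌊(1 + η) ^ (n + 3) / (1 + η) * T0⌋₊ q a : ℝ) + 1 ≤ (1 - δ / 2 - η) * (π / φ) + η * (π / φ) := by linarith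
      _ = _ := by ring

end Pool.Agent.H527.F
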