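import Mathlib
import Pool.Agent.H527.F.F8

/-! Counting the residues, and the moduli coprime to a residue. -/

set_option autoImplicit false

namespace Pool.Agent.H527.F

open Finset Filter Topology Pool.Agent.H527.AP Pool.Agent.H527.S Pool.Agent.H527.M Pool.Agent.H527.N

theorem few_small (A W : ℕ) (hW : 0 < W) (h2 : (W : ℝ) / (Nat.totient W : ℝ) ≤ 2) :
    (((Ioc 0 A).filter (fun a => W ∣ a ∧ 80 < rho 1 a)).card : ℝ) ≤ A / (8 * W) := by
  classical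
  have hW0 : (0 : ℝ) < W := by exact_mod_cast hW
  have h1 : (((Ioc 0 A).filter (fun a => W ∣ a ∧ 80 < rho 1 a)).card : ℝ) * 80 ≤ ∑ a ∈ (Ioc 0 A).filter (fun a => W ∣ a), rho 1 a := by
    rw [← nsmul_eq_mul]
    refine le_trans (card_nsmul_le_sum _ (fun a => rho 1 a) 80 ?_) ?_
    · intro a ha
      rw [mem_filter] at ha
      exact ha.2.2.le
    · apply sum_le_sum_of_subset_of_nonneg
      · intro a ha
        rw [mem_filter] at ha ⊢
        exact ⟨ha.1, ha.2.1⟩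
      · intro a _ _
        exact rho_nonneg 1 a
  have h3 : ∑ a ∈ (Ioc 0 A).filter (fun a => W ∣ a), rho 1 a ≤ ∑ b ∈ Icc 1 (A / W), 2 * rho 1 b := by
    have e : (Ioc 0 A).filter (fun a => W ∣ a) = (Icc 1 (A / W)).image (fun b => W * b) := by
      ext a
      rw [mem_filter, mem_image, mem_Ioc]
      constructor
      · rintro ⟨⟨h4, h5⟩, b, rfl⟩
        refine ⟨b, ?_, rfl⟩
        rw [mem_Icc]
        refine ⟨?_, ?_⟩
        · rcases Nat.eq_zero_or_pos b with h | h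
          · rw [h, mul_zero] at h4; omega
          · exact h
        · rw [Nat.le_div_iff_mul_le hW, mul_comm]; exact h5
      · rintro ⟨b, hb, rfl⟩
        rw [mem_Icc] at hb
        refine ⟨⟨Nat.mul_pos hW (by omega), ?_⟩, Nat.dvd_mul_right _ _⟩
        rw [mul_comm]
        exact (Nat.le_div_iff_mul_le hW).1 hb.2
    rw [e, sum_image (by
      intro x _ y _ hxy
      exact Nat.eq_of_mul_eq_mul_left hW hxy)]
    apply sum_le_sum
    intro b hb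
    rw [mem_Icc] at hb
    rw [rho_one _ (Nat.mul_pos hW (by omega)), rho_one _ (by omega)]
    have hφW : (0 : ℝ) < (Nat.totient W : ℝ) := by exact_mod_cast Nat.totient_pos.2 hW
    have hφb : (0 : ℝ) < (Nat.totient b : ℝ) := by exact_mod_cast Nat.totient_pos.2 (by omega : 0 < b)
    have h4 : (Nat.totient W : ℝ) * (Nat.totient b : ℝ) ≤ (Nat.totient (W * b) : ℝ) := by
      exact_mod_cast Nat.totient_super_multiplicative W b
    calc ((W * b : ℕ) : ℝ) / (Nat.totient (W * b) : ℝ) ≤ ((W * b : ℕ) : ℝ) / ((Nat.totient W : ℝ) * (Nat.totient b : ℝ)) := by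
          gcongr
      _ = ((W : ℝ) / (Nat.totient W : ℝ)) * ((b : ℝ) / (Nat.totient b : ℝ)) := by push_cast; rw [mul_div_mul_comm]
      _ ≤ 2 * ((b : ℝ) / (Nat.totient b : ℝ)) := by gcongr
  rw [← mul_sum] at h3
  have h4 := sum_rho (A / W)
  have h5 : ((A / W : ℕ) : ℝ) ≤ (A : ℝ) / W := Nat.cast_div_le
  have h6 : (((Ioc 0 A).filter (fun a => W ∣ a ∧ 80 < rho 1 a)).card : ℝ) * 80 ≤ 10 * ((A : ℝ) / W) := by linarith
  have h7 : (A : ℝ) / (8 * W) = (A : ℝ) / W / 8 := by field_simp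
  rw [h7]
  linarith

/-- a large constant -/
noncomputable def Kc : ℝ := 1200 ^ 8 * 256 ^ 257

theorem Kc_one : 1 ≤ Kc := by
  unfold Kc
  have h1 : (1 : ℝ) ≤ 1200 ^ 8 := one_le_pow₀ (by norm_num)
  have h2 : (1 : ℝ) ≤ 256 ^ 257 := one_le_pow₀ (by norm_num)
  exact one_le_mul_of_one_le_of_one_le h1 h2

theorem cop_count {a Q : ℕ} (ha : 0 < a) (haQ : a ≤ Q) (hr : rho 1 a ≤ 80)
    (hQ : Kc ≤ Q) :
    (Q : ℝ) / 100 ≤ (((Ioc Q (2 * Q)).filter (fun q => a.Coprime q)).card : ℝ) := by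
  classical
  have e1 : (Ioc Q (2 * Q)).filter (fun q => a.Coprime q) = rows 1 a Q (2 * Q) := by
    unfold rows
    apply filter_congr
    intro q _
    rw [Nat.coprime_comm]
    simp
  rw [e1]
  have h1 := rows_card 1 a Q (2 * Q) ha one_pos (by omega) (Nat.coprime_one_right a)
  rw [abs_le] at h1
  have h2 := h1.1
  push_cast at h2
  have hQ1 : (1 : ℝ) ≤ Q := Kc_one.trans hQ
  have hQ0 : (0 : ℝ) < Q := by linarith
  have ha0 : (0 : ℝ) < a := by exact_mod_cast ha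
  have haQr : (a : ℝ) ≤ Q := by exact_mod_cast haQ
  have hφ : (0 : ℝ) < (Nat.totient a : ℝ) := by exact_mod_cast Nat.totient_pos.2 ha
  rw [rho_one a ha, div_le_iff₀ hφ] at hr
  have h3 : (1 : ℝ) / 80 ≤ (Nat.totient a : ℝ) / a := by
    rw [div_le_div_iff₀ (by norm_num) ha0]; linarith
  have h4 : ((2 : ℝ) ^ a.primeFactors.card) ≤ Q / 1200 := by
    have h5 := pow_omega_le ha
    have h6 : ((2 : ℝ) ^ a.primeFactors.card) ^ 8 ≤ 256 ^ 257 * (a : ℝ) := by exact_mod_cast h5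
    have h8 : Kc = (1200 : ℝ) ^ 8 * 256 ^ 257 := rfl
    obtain ⟨E, hE⟩ : ∃ E : ℝ, E = (256 : ℝ) ^ 257 := ⟨_, rfl⟩
    obtain ⟨t, ht⟩ : ∃ t : ℝ, t = (2 : ℝ) ^ a.primeFactors.card := ⟨_, rfl⟩
    obtain ⟨r, hr'⟩ : ∃ r : ℝ, r = (1200 : ℝ) := ⟨_, rfl⟩
    have hr0 : 0 < r := by rw [hr']; norm_num
    rw [← hE, ← ht] at h6
    rw [← hE, ← hr'] at h8
    rw [← ht, ← hr']
    have h7 : t ^ 8 ≤ (Q / r) ^ 8 := by
      rw [div_pow, le_div_iff₀ (by positivity)]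
      calc t ^ 8 * r ^ 8 ≤ (E * (a : ℝ)) * r ^ 8 := by gcongr
        _ = Kc * (a : ℝ) := by rw [h8]; ring
        _ ≤ (Q : ℝ) * Q := by gcongr
        _ = (Q : ℝ) ^ 2 := by ring
        _ ≤ (Q : ℝ) ^ 8 := pow_le_pow_right₀ (by linarith) (by norm_num)
    exact le_of_pow_le_pow_left₀ (by norm_num) (by positivity) h7
  have h5 : (Q : ℝ) * (1 / 80) ≤ (2 * (Q : ℝ) - Q) / 1 * ((Nat.totient a : ℝ) / a) := by
    have h6 : (2 * (Q : ℝ) - Q) / 1 = Q := by ring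
    rw [h6]
    gcongr
  linarith

/-- the modulus range -/
noncomputable def Qx (b : ℝ) (X : ℕ) : ℕ := ⌊(X : ℝ) / (Real.log X) ^ b⌋₊

/-- the facts on `Q = Qx b X` -/
structure Fx (b v v2 A β Λ η : ℝ) (N X : ℕ) (Q : ℕ) : Prop where
  hL : 2 ≤ Real.log X
  l2 : 4 ≤ Real.log Q
  lQX : Real.log Q ≤ Real.log X
  lXQ : Real.log X ≤ 2 * Real.log Q
  Qlo : (X : ℝ) ≤ 2 * (Q * (Real.log X) ^ b)
  Qup : (Q : ℝ) * (Real.log X) ^ b ≤ X
  QX : Q ≤ X
  big : Kc ≤ Q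
  gη : Real.log Q ≤ η / 2 * ((Real.log X) ^ b / 4)
  g1 : 1 ≤ η / 2 * ((Real.log X) ^ b / 4)
  wv : (Real.log X) ^ v ≤ (Real.log Q) ^ v2
  wA : (Real.log X) ^ A ≤ (Real.log Q) ^ (A + 1)
  wβ : (Real.log Q) ^ (1 + β) ≤ (Real.log X) ^ (1 + β)
  pnt : ∀ y : ℝ, (X : ℝ) ≤ y → y ≤ Λ * X → (1 - η) * (y / Real.log Q) ≤ (Nat.primeCounting ⌊y⌋₊ : ℝ) ∧
      (Nat.primeCounting ⌊y⌋₊ : ℝ) ≤ (1 + η) * (y / Real.log Q)

theorem Fx_ev (b v v2 A β Λ η : ℝ) (N : ℕ) (hb : 1 < b) (hv : 0 < v) (hv2 : v < v2) (hA : 0 < A) (hβ : 0 < β)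
    (hη : 0 < η) (hη1 : η ≤ 1 / 2) : ∀ᶠ X : ℕ in atTop, Fx b v v2 A β Λ η N X (Qx b X) := by
  have hlt : Tendsto (fun X : ℕ => (X : ℝ) / (Real.log X) ^ b) atTop atTop := by
    have h1 : Tendsto (fun L : ℝ => Real.exp L / L ^ b) atTop atTop := tendsto_exp_div_rpow_atTop b
    have h2 := h1.comp tendsto_logN
    refine h2.congr' ?_
    filter_upwards [eventually_ge_atTop 1] with X hX
    have hX0 : (0 : ℝ) < X := by exact_mod_cast hX
    show Real.exp (Real.log X) / (Real.log X) ^ b = _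
    rw [Real.exp_log hX0]
  have tQ : Tendsto (fun X : ℕ => Qx b X) atTop atTop := tendsto_nat_floor_atTop.comp hlt
  have tlQ : Tendsto (fun X : ℕ => Real.log (Qx b X : ℝ)) atTop atTop := tendsto_logN.comp tQ
  obtain ⟨Λ', hΛ'⟩ : ∃ Λ' : ℝ, Λ' = max 1 Λ := ⟨_, rfl⟩
  have hΛ1 : 1 ≤ Λ' := by rw [hΛ']; exact le_max_left _ _
  have hΛ2 : Λ ≤ Λ' := by rw [hΛ']; exact le_max_right _ _
  have hpnt : ∀ᶠ X : ℕ in atTop, ∀ x : ℝ, ((Qx b X : ℕ) : ℝ) ≤ x →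
    x ≤ (Qx b X : ℕ) * (Real.log (Qx b X : ℕ)) ^ (b + 1) → (1 - η) * (x / Real.log (Qx b X : ℕ)) ≤ (Nat.primeCounting ⌊x⌋₊ : ℝ) ∧
      (Nat.primeCounting ⌊x⌋₊ : ℝ) ≤ (1 + η) * (x / Real.log (Qx b X : ℕ)) := tQ.eventually (pnt_Q (b + 1) η hη hη1)
  have tb : Tendsto (fun L : ℝ => L ^ b) atTop atTop := tendsto_rpow_atTop (by linarith)
  have e1 : ∀ᶠ L : ℝ in atTop, 2 * Real.log 2 + 2 * (b * Real.log L) ≤ L := by
    filter_upwards [as_log_pow 1 (4 * b) one_pos 1, eventually_ge_atTop (4 * Real.log 2)] with L h1 h2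
    rw [pow_one, Real.rpow_one] at h1
    linarith
  have e2 : ∀ᶠ L : ℝ in atTop, L ≤ η / 2 * (L ^ b / 4) := by
    filter_upwards [as_pow_pow 1 b (8 / η) hb] with L h
    rw [Real.rpow_one, div_mul_eq_mul_div, div_le_iff₀ hη] at h
    linarith
  have e3 : ∀ᶠ G : ℝ in atTop, (2 : ℝ) ^ v * G ^ v ≤ G ^ v2 := as_pow_pow v v2 _ hv2
  have e4 : ∀ᶠ G : ℝ in atTop, (2 : ℝ) ^ A * G ^ A ≤ G ^ (A + 1) := as_pow_pow A (A + 1) _ (by linarith)
  have e5 : ∀ᶠ G : ℝ in atTop, (2 * Λ' * (2 : ℝ) ^ b) * G ^ b ≤ G ^ (b + 1) := as_pow_pow b (b + 1) _ (by linarith)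
  have tQr : Tendsto (fun X : ℕ => ((Qx b X : ℕ) : ℝ)) atTop atTop := tendsto_natCast_atTop_atTop.comp tQ
  filter_upwards [tendsto_logN.eventually_ge_atTop 2, tlQ.eventually_ge_atTop 4, tQr.eventually_ge_atTop Kc,
    tendsto_logN.eventually e1, tendsto_logN.eventually e2, tlQ.eventually e3, tlQ.eventually e4, tlQ.eventually e5,
    hpnt, hlt.eventually_ge_atTop 1, eventually_ge_atTop 2] with X a1 a2 a3 a4 a5 a6 a7 a8 a9 a10 a11
  have hX0 : (0 : ℝ) < X := by exact_mod_cast (by omega : 0 < X)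
  obtain ⟨L, hL⟩ : ∃ L : ℝ, L = Real.log X := ⟨_, rfl⟩
  obtain ⟨Q, hQ⟩ : ∃ Q : ℕ, Q = Qx b X := ⟨_, rfl⟩
  obtain ⟨G, hG⟩ : ∃ G : ℝ, G = Real.log Q := ⟨_, rfl⟩
  rw [← hQ, ← hG] at a9
  rw [← hQ] at a2 a3 a6 a7 a8 ⊢
  rw [← hG] at a2 a6 a7 a8
  rw [← hL] at a1 a4 a5 a10
  have hL0 : 0 < L := by linarith
  have hLb : 0 < L ^ b := Real.rpow_pos_of_pos hL0 b
  have hLb1 : 1 ≤ L ^ b := Real.one_le_rpow (by linarith) (by linarith)
  have hQf : (Q : ℝ) ≤ X / L ^ b := by rw [hQ, hL]; exact Nat.floor_le (by positivity)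
  have hQf2 : X / L ^ b < (Q : ℝ) + 1 := by rw [hQ, hL]; exact Nat.lt_floor_add_one _
  have hQ1 : (1 : ℝ) ≤ Q := Kc_one.trans a3
  have hQ0 : (0 : ℝ) < Q := by linarith
  have hup : (Q : ℝ) * L ^ b ≤ X := by rwa [le_div_iff₀ hLb] at hQf
  have hlo : (X : ℝ) ≤ 2 * (Q * L ^ b) := by
    rw [div_lt_iff₀ hLb] at hQf2
    nlinarith
  have hQXr : (Q : ℝ) ≤ X := by nlinarith
  have hGL : G ≤ L := by rw [hG, hL]; exact Real.log_le_log hQ0 hQXr
  have hLG : L ≤ 2 * G := by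
    have h1 := Real.log_le_log hX0 hlo
    rw [Real.log_mul (by norm_num) (by positivity), Real.log_mul hQ0.ne' hLb.ne', Real.log_rpow hL0, ← hL, ← hG] at h1
    linarith
  have hG0 : 0 < G := by linarith
  constructor
  · rw [← hL]; exact a1
  · rw [← hG]; exact a2
  · rw [← hG, ← hL]; exact hGL
  · rw [← hG, ← hL]; exact hLG
  · rw [← hL]; exact hlo
  · rw [← hL]; exact hup
  · exact_mod_cast hQXr
  · exact a3
  · rw [← hG, ← hL]; linarith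
  · rw [← hL]; linarith
  · rw [← hG, ← hL]
    calc L ^ v ≤ (2 * G) ^ v := Real.rpow_le_rpow hL0.le hLG hv.le
      _ = 2 ^ v * G ^ v := Real.mul_rpow (by norm_num) hG0.le
      _ ≤ _ := a6
  · rw [← hG, ← hL]
    calc L ^ A ≤ (2 * G) ^ A := Real.rpow_le_rpow hL0.le hLG hA.le
      _ = 2 ^ A * G ^ A := Real.mul_rpow (by norm_num) hG0.le
      _ ≤ _ := a7
  · rw [← hG, ← hL]
    exact Real.rpow_le_rpow hG0.le hGL (by linarith)
  · rw [← hG]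
    intro y hy1 hy2
    apply a9 y (by linarith)
    calc y ≤ Λ * X := hy2
      _ ≤ Λ' * X := by gcongr
      _ ≤ Λ' * (2 * (Q * L ^ b)) := by gcongr
      _ ≤ Λ' * (2 * (Q * (2 ^ b * G ^ b))) := by
          have : L ^ b ≤ 2 ^ b * G ^ b := by
            rw [← Real.mul_rpow (by norm_num) hG0.le]
            exact Real.rpow_le_rpow hL0.le hLG (by linarith)
          gcongr
      _ = Q * ((2 * Λ' * (2 : ℝ) ^ b) * G ^ b) := by ring
      _ ≤ Q * G ^ (b + 1) := by gcongr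

end Pool.Agent.H527.F
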