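import Mathlib
import Pool.Agent.H527.F.F9

/-! One residue class for almost all moduli. -/

set_option autoImplicit false

namespace Pool.Agent.H527.F

open Finset Filter Topology Pool.Agent.H527.AP Pool.Agent.H527.S Pool.Agent.H527.M Pool.Agent.H527.N

/-- the primes `p ≡ a` modulo `q` deviate in the prescribed direction, for all `y` between `X` and `Λ X` -/
def Dev (X : ℕ) (Λ δ : ℝ) (b : Bool) (q a : ℕ) : Prop :=
  ∀ y : ℝ, (X : ℝ) ≤ y → y ≤ Λ * X →
    (b = true → (1 + δ) * ((Nat.primeCounting ⌊y⌋₊ : ℝ) / Nat.totient q) ≤ (pc y q a : ℝ)) ∧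
    (b = false → (pc y q a : ℝ) ≤ (1 - δ) * ((Nat.primeCounting ⌊y⌋₊ : ℝ) / Nat.totient q))

open Classical in
/-- `a` deviates for almost all the moduli coprime to it, in all the ranges -/
def GoodA {J : ℕ} (B : Fin J → ℝ) (X : ℕ) (Λ δ η : ℝ) (s : Fin J → Bool) (a : ℕ) : Prop :=
  ∀ j, (Qx (B j) X : ℝ) / 100 ≤ (((Ioc (Qx (B j) X) (2 * Qx (B j) X)).filter (fun q => a.Coprime q)).card : ℝ) ∧
    (((Ioc (Qx (B j) X) (2 * Qx (B j) X)).filter (fun q => a.Coprime q ∧ ¬ Dev X Λ δ (s j) q a)).card : ℝ) ≤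
      η * (((Ioc (Qx (B j) X) (2 * Qx (B j) X)).filter (fun q => a.Coprime q)).card : ℝ)

theorem Dev_mono {X : ℕ} {Λ δ δ' : ℝ} {b : Bool} {q a : ℕ} (h : δ' ≤ δ) (hD : Dev X Λ δ b q a) : Dev X Λ δ' b q a := by
  intro y h1 h2
  have h3 := hD y h1 h2
  have h4 : 0 ≤ (Nat.primeCounting ⌊y⌋₊ : ℝ) / Nat.totient q := by positivity
  refine ⟨fun hs => ?_, fun hs => ?_⟩
  · refine le_trans ?_ (h3.1 hs)
    exact mul_le_mul_of_nonneg_right (by linarith) h4
  · refine (h3.2 hs).trans ?_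
    exact mul_le_mul_of_nonneg_right (by linarith) h4

/-- the multiples of `W` -/
theorem mult_card (A W : ℕ) (hW : 0 < W) : (A : ℝ) / W - 1 ≤ (((Ioc 0 A).filter (fun a => W ∣ a)).card : ℝ) := by
  rw [Nat.Ioc_filter_dvd_card_eq_div]
  have h1 : A < (A / W + 1) * W := by
    have := Nat.lt_div_mul_add hW (a := A)
    rw [add_mul, one_mul]
    exact this
  have h2 : (A : ℝ) < ((A / W : ℕ) + 1) * W := by exact_mod_cast h1
  have hW0 : (0 : ℝ) < W := by exact_mod_cast hW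
  rw [sub_le_iff_le_add, div_le_iff₀ hW0]
  linarith

open Classical in
set_option maxHeartbeats 4000000 in
/-- one pattern of signs -/
theorem one_patternA {J : ℕ} (B : Fin J → ℝ) (hB1 : ∀ j, 1 < B j) (hB : StrictMono B) (ε v : ℝ) (hv : 0 < v)
    (hv1 : v ≤ 1 / 100) (hvε : v < ε) (s : Fin J → Bool) : ∃ d : ℝ, 0 < d ∧ ∀ δ ≤ d, ∀ Λ η : ℝ, 0 < η → ∀ᶠ X : ℕ in atTop,
      ∀ A : ℕ, (X : ℝ) ≤ A * Real.exp ((Real.log X) ^ v) → (∀ j, A ≤ Qx (B j) X) →
      (A : ℝ) * Real.exp (-((Real.log X) ^ ε)) ≤ (((Ioc 0 A).filter (fun a => GoodA B X Λ δ η s a)).card : ℝ) := by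
  classical
  obtain ⟨par, hpar⟩ : ∃ par : Fin J → ℕ, par = fun j => if s j then 1 else 0 := ⟨_, rfl⟩
  obtain ⟨u, k, g, z, c1, β, δ1, H⟩ := exists_Pf B hB1 hB par v hv (by linarith)
  have hδ1 := H.hδ
  have hδ11 := H.hδ1
  refine ⟨δ1 / 2 / 2, by linarith, fun δ hδ Λ η hη => ?_⟩
  obtain ⟨ηt, hηt⟩ : ∃ ηt : ℝ, ηt = δ1 / 2 / 32 := ⟨_, rfl⟩
  have hηt0 : 0 < ηt := by rw [hηt]; linarith
  obtain ⟨Λ', hΛ'⟩ : ∃ Λ' : ℝ, Λ' = max 1 Λ := ⟨_, rfl⟩
  have hΛ1 : 1 ≤ Λ' := by rw [hΛ']; exact le_max_left _ _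
  have hΛ2 : Λ ≤ Λ' := by rw [hΛ']; exact le_max_right _ _
  obtain ⟨N, hN⟩ := pow_unbounded_of_one_lt (8 * Λ') (show (1 : ℝ) < 1 + ηt by linarith)
  obtain ⟨C, hC⟩ : ∃ C, C = Cx ηt N := ⟨_, rfl⟩
  have hCpos : ∀ c ∈ C, 0 < c := by rw [hC]; exact Cx_pos hηt0 N
  obtain ⟨η0, A', hη0, hA', hF⟩ := H.ev C hCpos
  -- constants
  obtain ⟨n, hn⟩ : ∃ n : ℕ, n = ((univ : Finset (Fin J)) ×ˢ C).card := ⟨_, rfl⟩
  obtain ⟨κ, hκ⟩ : ∃ κ : ℝ, κ = η / (100 * (C.card + 1)) := ⟨_, rfl⟩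
  have hκ0 : 0 < κ := by rw [hκ]; positivity
  obtain ⟨e, he⟩ : ∃ e : ℝ, e = min (1 / 3) ((δ1 / 8) ^ 2 * κ / (480 * (n + 1))) := ⟨_, rfl⟩
  have he0 : 0 < e := by rw [he]; exact lt_min (by norm_num) (by positivity)
  have he3 : e ≤ 1 / 3 := by rw [he]; exact min_le_left _ _
  have he4 : 60 * e / ((δ1 / 8) ^ 2 * κ) ≤ 1 / (8 * (n + 1)) := by
    have h1 : e ≤ (δ1 / 8) ^ 2 * κ / (480 * (n + 1)) := by rw [he]; exact min_le_right _ _
    rw [div_le_div_iff₀ (by positivity) (by positivity)]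
    rw [le_div_iff₀ (by positivity)] at h1
    linarith
  obtain ⟨D, N₀, hvar⟩ := exists_varA c1 (2 * v) (1 / 40) (A' + 1) β (Real.exp (Fintype.card (Fin J × Bool))) e H.hc1
    (by linarith [H.c1v]) (by linarith) le_rfl H.hβ (by linarith) he0 he3
  have t1 : Tendsto (fun X : ℕ => (Real.log X) ^ (-c1)) atTop (𝓝 0) := (tendsto_rpow_neg_atTop H.hc1).comp tendsto_logN
  have e1 : ∀ᶠ X : ℕ in atTop, ∀ i, (J : ℝ) * (Real.log X) ^ (-c1) < z ^ u i / 8 := by
    rw [eventually_all]; intro i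
    have t2 : Tendsto (fun X : ℕ => (J : ℝ) * (Real.log X) ^ (-c1)) atTop (𝓝 ((J : ℝ) * 0)) := t1.const_mul _
    rw [mul_zero] at t2
    have := Real.rpow_pos_of_pos H.hz0 (u i)
    exact t2.eventually (gt_mem_nhds (by linarith))
  have tQ : ∀ j, Tendsto (fun X : ℕ => Qx (B j) X) atTop atTop := by
    intro j
    have h1 : Tendsto (fun L : ℝ => Real.exp L / L ^ B j) atTop atTop := tendsto_exp_div_rpow_atTop (B j)
    have h2 := h1.comp tendsto_logN
    have h3 : Tendsto (fun X : ℕ => (X : ℝ) / (Real.log X) ^ B j) atTop atTop := by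
      refine h2.congr' ?_
      filter_upwards [eventually_ge_atTop 1] with X hX
      have hX0 : (0 : ℝ) < X := by exact_mod_cast hX
      show Real.exp (Real.log X) / (Real.log X) ^ B j = _
      rw [Real.exp_log hX0]
    exact tendsto_nat_floor_atTop.comp h3
  have e2 := eventually_all.2 (fun j => (tQ j).eventually hvar)
  have e3 := eventually_all.2 (fun j => Fx_ev (B j) v (2 * v) A' β Λ ηt N (hB1 j) hv (by linarith) hA' H.hβ hηt0
    (by rw [hηt]; linarith))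
  have e4 : ∀ᶠ L : ℝ in atTop, Real.log 4 + 3 / 2 * L ^ v + L ^ v ≤ L := by
    filter_upwards [as_pow_pow v 1 5 (by linarith), eventually_ge_atTop (2 * Real.log 4)] with L a1 a2
    rw [Real.rpow_one] at a1
    linarith
  have e5 : ∀ᶠ L : ℝ in atTop, Real.log 4 + 3 / 2 * L ^ v ≤ L ^ ε := by
    filter_upwards [as_pow_pow v ε 3 hvε, (tendsto_rpow_atTop (by linarith : 0 < ε)).eventually_ge_atTop (2 * Real.log 4)]
      with L a1 a2
    linarith
  filter_upwards [hF, e1, e2, e3, tendsto_logN.eventually e4, tendsto_logN.eventually e5, eventually_ge_atTop 2]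
    with X F f1 f2 f3 f4 f5 hX2 A hAX hAQ
  have hL := F.hL
  have hX0 : (0 : ℝ) < X := by exact_mod_cast (by omega : 0 < X)
  obtain ⟨L, hLd⟩ : ∃ L : ℝ, L = Real.log X := ⟨_, rfl⟩
  have hL0 : 0 < L := by rw [hLd]; linarith
  have hLv : 0 < L ^ v := Real.rpow_pos_of_pos hL0 v
  -- the exceptional primes
  choose ps f hV using f2
  obtain ⟨PS, hPSd⟩ : ∃ PS : Finset ℕ, PS = (univ : Finset (Fin J)).image ps := ⟨_, rfl⟩
  have hPScard : (PS.card : ℝ) ≤ J := by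
    have h1 : PS.card ≤ J := by
      rw [hPSd]
      refine card_image_le.trans ?_
      rw [card_univ, Fintype.card_fin]
    exact_mod_cast h1
  have hPS : ∀ i, (PS.card : ℝ) * (Real.log X) ^ (-c1) ≤ z ^ u i / 8 := by
    intro i
    refine le_trans ?_ (f1 i).le
    have : 0 ≤ (Real.log X) ^ (-c1) := Real.rpow_nonneg (by linarith) _
    gcongr
  obtain ⟨P0, hP0⟩ : ∃ P0, P0 = PU (Wx u z X PS) := ⟨_, rfl⟩
  obtain ⟨g1, g2, g3, g4, g5⟩ := P0x H F PS
  rw [← hP0] at g1 g2 g3 g4 g5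
  have hprod : 1 / 2 ≤ ∏ p ∈ P0, (1 - 1 / (p : ℝ)) := by
    have h1 := prod_ge P0 (fun p hp => by exact_mod_cast (g4 p hp).one_lt.le)
    linarith
  obtain ⟨w1, w2, w3, w4⟩ := win_facts c1 v X (by linarith) P0 g1 hv
  have hWp : 0 < ∏ p ∈ P0, p := Finset.prod_pos fun p hp => (g4 p hp).pos
  have hφ2 : ((∏ p ∈ P0, p : ℕ) : ℝ) / (Nat.totient (∏ p ∈ P0, p) : ℝ) ≤ 2 := by
    have h6 := tot_prod P0 g4
    have h7 : (0 : ℝ) < ((∏ p ∈ P0, p : ℕ) : ℝ) := by exact_mod_cast hWp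
    rw [h6, div_le_iff₀ (by positivity)]
    nlinarith
  obtain ⟨W, hWd⟩ : ∃ W, W = ∏ p ∈ P0, p := ⟨_, rfl⟩
  have hW0 : (0 : ℝ) < W := by rw [hWd]; exact_mod_cast hWp
  -- the variance
  have hVA : ∀ j, ∀ c ∈ C, ∃ Er : ℝ, VarA (Qx (B j) X) A (Ysc c (B j) X) (SY P0 (Ysc c (B j) X)).card D (f j) N₀ P0 Er e := by
    intro j c hc
    have Fj := f3 j
    have hG0 : 0 < Real.log (Qx (B j) X) := by linarith [Fj.l2]
    have hwin : P0 ⊆ win c1 (2 * v) (Qx (B j) X) := by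
      intro p hp
      have h1 := g1 hp
      unfold win at h1 ⊢
      rw [mem_filter, mem_Ioc] at h1 ⊢
      refine ⟨⟨lt_of_le_of_lt (Nat.floor_le_floor ?_) h1.1.1, h1.1.2.trans (Nat.floor_le_floor ?_)⟩, h1.2⟩
      · exact Real.rpow_le_rpow hG0.le Fj.lQX H.hc1.le
      · exact Fj.wv
    have hps : ps j ∉ P0 := g2 _ (by rw [hPSd]; exact mem_image_of_mem _ (mem_univ j))
    have hSc : Sc (A' + 1) β (Real.log (Qx (B j) X)) (Real.exp (Fintype.card (Fin J × Bool))) P0 (Ysc c (B j) X) := by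
      refine ⟨?_, ?_, ?_⟩
      · exact Fj.wβ.trans (F.y3 j c hc)
      · exact (F.y4 j c hc).trans Fj.wA
      · have h1 := (SYx H F PS j hc).2
        rw [← hP0] at h1
        refine le_trans ?_ h1
        have h2 := Real.rpow_le_rpow hG0.le Fj.lQX H.hβ.le
        gcongr
    obtain ⟨Er, hEr⟩ := hV j P0 hwin hps g3 _ hSc
    refine ⟨Er, hEr A (hAQ j) ?_⟩
    calc ((Qx (B j) X : ℕ) : ℝ) ≤ X := by exact_mod_cast Fj.QX
      _ ≤ A * Real.exp ((Real.log X) ^ v) := hAX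
      _ ≤ A * Real.exp ((Real.log (Qx (B j) X)) ^ (2 * v)) := by
          have := Fj.wv
          gcongr
  -- the good residues
  obtain ⟨G, hG⟩ : ∃ G, G = (Ioc 0 A).filter (fun a => W ∣ a ∧ rho 1 a ≤ 80 ∧
    ∀ j, ∀ c ∈ C, ((BadQ (Qx (B j) X) (Ysc c (B j) X) P0 (δ1 / 8) a).card : ℝ) ≤ κ * (Qx (B j) X : ℕ)) := ⟨_, rfl⟩
  have hGsub : G ⊆ (Ioc 0 A).filter (fun a => GoodA B X Λ δ η s a) := by
    intro a ha
    rw [hG, mem_filter, mem_Ioc] at ha
    obtain ⟨⟨ha0, haA⟩, haW, har, hab⟩ := ha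
    rw [mem_filter, mem_Ioc]
    refine ⟨⟨ha0, haA⟩, ?_⟩
    intro j
    have Fj := f3 j
    have haQ : a ≤ Qx (B j) X := haA.trans (hAQ j)
    have hcop := cop_count ha0 haQ har Fj.big
    refine ⟨hcop, ?_⟩
    obtain ⟨Q, hQ⟩ : ∃ Q, Q = Qx (B j) X := ⟨_, rfl⟩
    rw [← hQ] at Fj haQ hcop ⊢
    have hQ1 : 0 < Q := by
      have h1 := Kc_one.trans Fj.big
      have h2 : (0 : ℝ) < Q := by linarith
      exact_mod_cast h2
    have hQ0 : (0 : ℝ) < Q := by exact_mod_cast hQ1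
    have hsub : (Ioc Q (2 * Q)).filter (fun q => a.Coprime q ∧ ¬ Dev X Λ δ (s j) q a) ⊆
        C.biUnion (fun c => BadQ Q (Ysc c (B j) X) P0 (δ1 / 8) a) := by
      intro q hq
      rw [mem_filter, mem_Ioc] at hq
      obtain ⟨⟨hq1, hq2⟩, hqa, hqD⟩ := hq
      rw [mem_biUnion]
      by_contra hcon
      apply hqD
      have hgood : ∀ c ∈ C, |(Nn (Ysc c (B j) X) q a : ℝ) - mu Q (Ysc c (B j) X) P0 q| ≤
          δ1 / 8 * mu Q (Ysc c (B j) X) P0 q := by
        intro c hc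
        by_contra h1
        apply hcon
        refine ⟨c, hc, ?_⟩
        unfold BadQ
        rw [mem_filter, mem_Ioc]
        exact ⟨⟨hq1, hq2⟩, hqa, h1⟩
      have hq0n : 0 < q := by omega
      have hq0 : (0 : ℝ) < q := by exact_mod_cast hq0n
      have hqQ : (Q : ℝ) ≤ q := by exact_mod_cast hq1.le
      have hqQ2 : (q : ℝ) ≤ 2 * Q := by exact_mod_cast hq2
      have hgx : ∀ c ∈ C, _ := fun c hc => goodx H F PS hPS j hc (Q := Q) (q := q) (a := a) (by linarith [Fj.l2]) hq0n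
        (by rw [← hP0]; exact hgood c hc)
      have hLb : 0 < L ^ B j := Real.rpow_pos_of_pos hL0 _
      apply Dev_mono hδ
      intro y hy1 hy2
      have hy0 : 0 < y := by linarith
      obtain ⟨p1, p2⟩ := Fj.pnt y hy1 hy2
      have hQup := Fj.Qup
      have hQlo := Fj.Qlo
      rw [← hLd] at hQup hQlo
      have hyq1 : (Real.log X) ^ B j / 4 ≤ y / q := by
        rw [le_div_iff₀ hq0, ← hLd]
        calc L ^ B j / 4 * q ≤ L ^ B j / 4 * (2 * Q) := by gcongr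
          _ = (Q * L ^ B j) / 2 := by ring
          _ ≤ (Q * L ^ B j) := by
              have : 0 < Q * L ^ B j := by positivity
              linarith
          _ ≤ y := by linarith
      have hyq2 : y / q < (1 + ηt) ^ N * ((Real.log X) ^ B j / 4) := by
        rw [div_lt_iff₀ hq0, ← hLd]
        calc y ≤ Λ * X := hy2
          _ ≤ Λ' * X := by gcongr
          _ ≤ Λ' * (2 * (Q * L ^ B j)) := by gcongr
          _ = (8 * Λ') * (L ^ B j / 4) * Q := by ring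
          _ ≤ (8 * Λ') * (L ^ B j / 4) * q := by gcongr
          _ < (1 + ηt) ^ N * (L ^ B j / 4) * q := by gcongr
      have htr := transfer1 (δ := δ1 / 2) (η := ηt) (G := Real.log Q) (y := y) (b := B j) (q := q) (a := a) (X := X) (N := N)
        (by linarith) (by linarith) hηt hq0n ha0 (by omega) (by linarith [Fj.l2]) (by linarith) Fj.g1 Fj.gη hy0 hyq1 hyq2 p1 p2
      rw [← hC] at htr
      refine ⟨fun hs => ?_, fun hs => ?_⟩
      · apply htr.1
        intro c hc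
        exact (hgx c hc).1 (by rw [hpar]; simp [hs])
      · apply htr.2
        intro c hc
        exact (hgx c hc).2 (by rw [hpar]; simp [hs])
    have h1 := (card_le_card hsub).trans card_biUnion_le
    have h2 : (((Ioc Q (2 * Q)).filter (fun q => a.Coprime q ∧ ¬ Dev X Λ δ (s j) q a)).card : ℝ) ≤
        ∑ c ∈ C, ((BadQ Q (Ysc c (B j) X) P0 (δ1 / 8) a).card : ℝ) := by exact_mod_cast h1
    have h3 : ∑ c ∈ C, ((BadQ Q (Ysc c (B j) X) P0 (δ1 / 8) a).card : ℝ) ≤ ∑ _c ∈ C, κ * Q := by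
      apply sum_le_sum
      intro c hc
      have := hab j c hc
      rwa [← hQ] at this
    rw [sum_const, nsmul_eq_mul] at h3
    have h4 : (C.card : ℝ) * (κ * Q) ≤ η * ((Q : ℝ) / 100) := by
      have h5 : (C.card : ℝ) * κ ≤ η / 100 := by
        rw [hκ]
        have h6 : (0 : ℝ) ≤ C.card := Nat.cast_nonneg _
        rw [← mul_div_assoc, div_le_div_iff₀ (by positivity) (by norm_num)]
        nlinarith
      calc (C.card : ℝ) * (κ * Q) = ((C.card : ℝ) * κ) * Q := by ring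
        _ ≤ (η / 100) * Q := by gcongr
        _ = _ := by ring
    have h5 : η * ((Q : ℝ) / 100) ≤ η * (((Ioc Q (2 * Q)).filter (fun q => a.Coprime q)).card : ℝ) :=
      mul_le_mul_of_nonneg_left hcop hη.le
    linarith
  have hGcard : (A : ℝ) / (2 * W) ≤ (G.card : ℝ) := by
    have hsub : (Ioc 0 A).filter (fun a => W ∣ a) ⊆ G ∪ ((Ioc 0 A).filter (fun a => W ∣ a ∧ 80 < rho 1 a) ∪
        ((univ : Finset (Fin J)) ×ˢ C).biUnion (fun x => (Ioc 0 A).filter (fun a => W ∣ a ∧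
          ¬ ((BadQ (Qx (B x.1) X) (Ysc x.2 (B x.1) X) P0 (δ1 / 8) a).card : ℝ) ≤ κ * (Qx (B x.1) X : ℕ)))) := by
      intro a ha
      rw [mem_filter] at ha
      rw [mem_union, mem_union, mem_filter, mem_biUnion]
      by_cases h1 : 80 < rho 1 a
      · right; left; exact ⟨ha.1, ha.2, h1⟩
      by_cases h2 : ∀ j, ∀ c ∈ C, ((BadQ (Qx (B j) X) (Ysc c (B j) X) P0 (δ1 / 8) a).card : ℝ) ≤ κ * (Qx (B j) X : ℕ)
      · left
        rw [hG, mem_filter]
        exact ⟨ha.1, ha.2, not_lt.1 h1, h2⟩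
      · right; right
        push Not at h2
        obtain ⟨j, c, hc, h3⟩ := h2
        refine ⟨(j, c), mem_product.2 ⟨mem_univ j, hc⟩, ?_⟩
        rw [mem_filter]
        exact ⟨ha.1, ha.2, not_le.2 h3⟩
    have h1 := (card_le_card hsub).trans ((card_union_le _ _).trans (Nat.add_le_add_left ((card_union_le _ _).trans
      (Nat.add_le_add_left card_biUnion_le _)) _))
    have h2 : (((Ioc 0 A).filter (fun a => W ∣ a)).card : ℝ) ≤ (G.card : ℝ) +
        ((((Ioc 0 A).filter (fun a => W ∣ a ∧ 80 < rho 1 a)).card : ℝ) +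
        ∑ x ∈ (univ : Finset (Fin J)) ×ˢ C, (((Ioc 0 A).filter (fun a => W ∣ a ∧
          ¬ ((BadQ (Qx (B x.1) X) (Ysc x.2 (B x.1) X) P0 (δ1 / 8) a).card : ℝ) ≤ κ * (Qx (B x.1) X : ℕ))).card : ℝ)) := by
      exact_mod_cast h1
    have h3 := mult_card A W (by rw [hWd]; exact hWp)
    have h4 := few_small A W (by rw [hWd]; exact hWp) (by rw [hWd]; exact hφ2)
    have h5 : ∀ x ∈ (univ : Finset (Fin J)) ×ˢ C, (((Ioc 0 A).filter (fun a => W ∣ a ∧
          ¬ ((BadQ (Qx (B x.1) X) (Ysc x.2 (B x.1) X) P0 (δ1 / 8) a).card : ℝ) ≤ κ * (Qx (B x.1) X : ℕ))).card : ℝ) ≤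
          1 / (8 * (n + 1)) * (A / W) := by
      intro x hx
      rw [mem_product] at hx
      obtain ⟨Er, hEr⟩ := hVA x.1 x.2 hx.2
      have h6 := typA hEr (by linarith : 0 < δ1 / 8) hκ0
      rw [← hWd] at h6
      have h7 : 60 * e / ((δ1 / 8) ^ 2 * κ) * A ≤ 1 / (8 * (n + 1)) * A := mul_le_mul_of_nonneg_right he4 (Nat.cast_nonneg _)
      rw [← mul_div_assoc, le_div_iff₀ hW0]
      linarith
    have h6 := sum_le_sum h5
    rw [sum_const, nsmul_eq_mul, ← hn] at h6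
    have hAW0 : 0 ≤ (A : ℝ) / W := by positivity
    have h7 : (n : ℝ) * (1 / (8 * (n + 1)) * (A / W)) ≤ (A : ℝ) / W / 8 := by
      have h8 : (n : ℝ) * (1 / (8 * (n + 1))) ≤ 1 / 8 := by
        rw [mul_one_div, div_le_div_iff₀ (by positivity) (by norm_num)]
        linarith
      calc (n : ℝ) * (1 / (8 * (n + 1)) * (A / W)) = ((n : ℝ) * (1 / (8 * (n + 1)))) * (A / W) := by ring
        _ ≤ 1 / 8 * (A / W) := by gcongr
        _ = _ := by ring
    have h8 : (A : ℝ) / (8 * W) = (A : ℝ) / W / 8 := by field_simp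
    have h9 : (A : ℝ) / (2 * W) = (A : ℝ) / W / 2 := by field_simp
    rw [h8] at h4
    rw [h9]
    -- `A / W` is large
    have h10 : 4 ≤ (A : ℝ) / W := by
      rw [le_div_iff₀ hW0]
      have hWle : (W : ℝ) ≤ Real.exp (3 / 2 * L ^ v) := by rw [hWd, hLd]; exact w4
      have hEE : Real.exp (L ^ v) * Real.exp (-(L ^ v)) = 1 := by rw [← Real.exp_add]; simp
      have h11 : (X : ℝ) * Real.exp (-(L ^ v)) ≤ A := by
        rw [← hLd] at hAX
        calc (X : ℝ) * Real.exp (-(L ^ v)) ≤ (A * Real.exp (L ^ v)) * Real.exp (-(L ^ v)) := by gcongr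
          _ = A * (Real.exp (L ^ v) * Real.exp (-(L ^ v))) := by ring
          _ = A := by rw [hEE, mul_one]
      refine le_trans ?_ h11
      have hXe : (X : ℝ) = Real.exp L := by rw [hLd, Real.exp_log hX0]
      calc 4 * (W : ℝ) ≤ Real.exp (Real.log 4) * Real.exp (3 / 2 * L ^ v) := by
            rw [Real.exp_log (by norm_num)]; gcongr
        _ = Real.exp (Real.log 4 + 3 / 2 * L ^ v) := by rw [Real.exp_add]
        _ ≤ Real.exp (L + -(L ^ v)) := by
            apply Real.exp_le_exp.2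
            rw [hLd]
            linarith
        _ = _ := by rw [Real.exp_add, ← hXe]
    linarith
  have hfin : (A : ℝ) * Real.exp (-((Real.log X) ^ ε)) ≤ (A : ℝ) / (2 * W) := by
    have hWle : (W : ℝ) ≤ Real.exp (3 / 2 * L ^ v) := by rw [hWd, hLd]; exact w4
    rw [← hLd] at f5 ⊢
    have h1 : 2 * (W : ℝ) ≤ Real.exp (L ^ ε) := by
      have h2 : (2 : ℝ) ≤ Real.exp (Real.log 4) := by rw [Real.exp_log (by norm_num)]; norm_num
      calc 2 * (W : ℝ) ≤ Real.exp (Real.log 4) * Real.exp (3 / 2 * L ^ v) := by gcongr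
        _ = Real.exp (Real.log 4 + 3 / 2 * L ^ v) := by rw [Real.exp_add]
        _ ≤ _ := Real.exp_le_exp.2 f5
    rw [le_div_iff₀ (by positivity)]
    have hEE : Real.exp (-(L ^ ε)) * Real.exp (L ^ ε) = 1 := by rw [← Real.exp_add]; simp
    calc (A : ℝ) * Real.exp (-(L ^ ε)) * (2 * W) ≤ (A : ℝ) * Real.exp (-(L ^ ε)) * Real.exp (L ^ ε) := by gcongr
      _ = A * (Real.exp (-(L ^ ε)) * Real.exp (L ^ ε)) := by ring
      _ = A := by rw [hEE, mul_one]
  refine hfin.trans (hGcard.trans ?_)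
  exact_mod_cast card_le_card hGsub

end Pool.Agent.H527.F
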