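import Mathlib
import Pool.Agent.H527.F.F10

/-! All the sign patterns. -/

set_option autoImplicit false

namespace Pool.Agent.H527.F

open Finset Filter Topology Pool.Agent.H527.AP Pool.Agent.H527.S Pool.Agent.H527.M Pool.Agent.H527.N

open Classical in
theorem all_patternsA {J : ℕ} (B : Fin J → ℝ) (hB1 : ∀ j, 1 < B j) (hB : StrictMono B) (ε : ℝ) (hε : 0 < ε) :
    ∃ c : ℝ, 0 < c ∧ ∃ δ : ℝ, 0 < δ ∧ ∀ Λ η : ℝ, 0 < η → ∀ᶠ X : ℕ in atTop,
      ∀ A : ℕ, (X : ℝ) * Real.exp (-((Real.log X) ^ c)) ≤ A → (∀ j, A ≤ Qx (B j) X) → ∀ s : Fin J → Bool,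
      (A : ℝ) * Real.exp (-((Real.log X) ^ ε)) ≤ (((Ioc 0 A).filter (fun a => GoodA B X Λ δ η s a)).card : ℝ) := by
  obtain ⟨v, hvd⟩ : ∃ v : ℝ, v = min (ε / 2) (1 / 100) := ⟨_, rfl⟩
  have hv : 0 < v := by rw [hvd]; exact lt_min (half_pos hε) (by norm_num)
  have hv1 : v ≤ 1 / 100 := by rw [hvd]; exact min_le_right _ _
  have hvε : v < ε := by
    have : v ≤ ε / 2 := by rw [hvd]; exact min_le_left _ _
    linarith
  choose d hd0 hd using fun s : Fin J → Bool => one_patternA B hB1 hB ε v hv hv1 hvε s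
  obtain ⟨δ, hδ, hδ'⟩ := fin_gap (Set.univ : Set (Fin J → Bool)) Set.finite_univ d (fun s _ => hd0 s)
  refine ⟨v, hv, δ, hδ, fun Λ η hη => ?_⟩
  filter_upwards [eventually_all.2 (fun s => hd s δ (hδ' s (Set.mem_univ s)) Λ η hη)] with X hX A hA hAQ s
  refine hX s A ?_ hAQ
  have hEE : Real.exp (-((Real.log X) ^ v)) * Real.exp ((Real.log X) ^ v) = 1 := by rw [← Real.exp_add]; simp
  calc (X : ℝ) = X * (Real.exp (-((Real.log X) ^ v)) * Real.exp ((Real.log X) ^ v)) := by rw [hEE, mul_one]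
    _ = (X * Real.exp (-((Real.log X) ^ v))) * Real.exp ((Real.log X) ^ v) := by ring
    _ ≤ A * Real.exp ((Real.log X) ^ v) := by gcongr

end Pool.Agent.H527.F
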